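import Mathlib

/-!
General definitions (any dimension `d`): prototile sets, tiles, patches, tilings, matching rules,
legality, periodicity, regions and discrepancy.
-/

set_option autoImplicit false

namespace Pool.Agent.H50R3.AMR

open MeasureTheory Metric

/-- `d`-dimensional Euclidean space. -/
abbrev E (d : ℕ) : Type := EuclideanSpace ℝ (Fin d)

/-- A prototile set in `ℝ^d`: finitely many tile types; each type `t` has a shape, a nonempty
compact set that equals the closure of its interior and whose boundary has finite
`(d-1)`-dimensional Hausdorff measure.  Different types may have the same shape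
(they then differ by their label). -/
structure ProtoSet (d : ℕ) where
  /-- the tile types -/
  F : Type
  finite : Finite F
  /-- the shape of a tile type -/
  shape : F → Set (E d)
  nonempty : ∀ t, (shape t).Nonempty
  compact : ∀ t, IsCompact (shape t)
  regular : ∀ t, closure (interior (shape t)) = shape t
  bdry : ∀ t, μH[(d : ℝ) - 1] (frontier (shape t)) < ⊤

variable {d : ℕ}

/-- A tile is a translate of a prototile: a type together with a translation vector. -/
abbrev Tile (S : ProtoSet d) : Type := S.F × E d

/-- The point set of a tile. -/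
def carrier {S : ProtoSet d} (τ : Tile S) : Set (E d) := {z | z - τ.2 ∈ S.shape τ.1}

/-- The tiles of the set `P` have pairwise disjoint interiors. -/
def Packed {S : ProtoSet d} (P : Set (Tile S)) : Prop :=
  ∀ τ ∈ P, ∀ τ' ∈ P, τ ≠ τ' → Disjoint (interior (carrier τ)) (interior (carrier τ'))

/-- A patch is a finite set of tiles with pairwise disjoint interiors. -/
def IsPatch {S : ProtoSet d} (P : Set (Tile S)) : Prop := P.Finite ∧ Packed P

/-- The region covered by a set of tiles. -/
def region {S : ProtoSet d} (P : Set (Tile S)) : Set (E d) := ⋃ τ ∈ P, carrier τ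

/-- A tiling is a set of tiles with pairwise disjoint interiors that covers `ℝ^d`. -/
def IsTiling {S : ProtoSet d} (T : Set (Tile S)) : Prop := Packed T ∧ region T = Set.univ

/-- The translate of a set of tiles by the vector `v`. -/
def translate {S : ProtoSet d} (v : E d) (P : Set (Tile S)) : Set (Tile S) :=
  (fun τ => (τ.1, v + τ.2)) '' P

/-- A local matching rule: a radius `r > 0` and a finite set of patches. -/
structure MatchingRule (S : ProtoSet d) where
  r : ℝ
  r_pos : 0 < r
  allowed : Set (Set (Tile S))
  allowed_finite : allowed.Finite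
  allowed_patch : ∀ A ∈ allowed, IsPatch A

/-- A set of tiles `P` (a tiling or a patch) is legal if for every `x` the tiles of `P` meeting the
ball `B(x,r)` form a translate of a sub-patch of an allowed patch. -/
def Legal {S : ProtoSet d} (M : MatchingRule S) (P : Set (Tile S)) : Prop :=
  ∀ x : E d, ∃ A ∈ M.allowed, ∃ B ⊆ A, ∃ v : E d,
    {τ ∈ P | (carrier τ ∩ ball x M.r).Nonempty} = translate v B

/-- `T` is periodic if it is invariant under a nonzero translation. -/
def IsPeriodic {S : ProtoSet d} (T : Set (Tile S)) : Prop := ∃ v : E d, v ≠ 0 ∧ translate v T = T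

/-- The number of tiles of type `t` in the region formed by the finite set `ρ` of tiles. -/
noncomputable def tileCount {S : ProtoSet d} (t : S.F) (ρ : Finset (Tile S)) : ℕ :=
  {τ : Tile S | τ ∈ ρ ∧ τ.1 = t}.ncard

/-- The discrepancy `|N_t(R) - δ · vol(R)|` of the region `R` formed by the finite set `ρ`
of tiles, `δ` being the given density of the type `t`. -/
noncomputable def discrepancy {S : ProtoSet d} (t : S.F) (δ : ℝ) (ρ : Finset (Tile S)) : ℝ :=
  |(tileCount t ρ : ℝ) - δ * (volume (region (ρ : Set (Tile S)))).toReal|

/-- The perimeter `|∂R|`, i.e. the `(d-1)`-dimensional Hausdorff measure of the boundary, of the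
region formed by the finite set `ρ` of tiles, with values in `[0,∞]`. -/
noncomputable def perimeterENN {S : ProtoSet d} (ρ : Finset (Tile S)) : ENNReal :=
  μH[(d : ℝ) - 1] (frontier (region (ρ : Set (Tile S))))

/-- The perimeter `|∂R|` as a real number (it is always finite, see `perimeterENN_ne_top`). -/
noncomputable def perimeter {S : ProtoSet d} (ρ : Finset (Tile S)) : ℝ := (perimeterENN ρ).toReal

/-- The number of occurrences of the pattern `A` (a finite set of tiles, considered up to
translation) in the region formed by the finite set `ρ` of tiles: the number of translates of `A`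
all of whose tiles belong to `ρ`. -/
noncomputable def patternCount {S : ProtoSet d} (A ρ : Finset (Tile S)) : ℕ :=
  {v : E d | translate v (A : Set (Tile S)) ⊆ ρ}.ncard

/-- The discrepancy of the pattern `A` in the region formed by the finite set `ρ` of tiles, for the
given density `δ`. -/
noncomputable def patternDiscrepancy {S : ProtoSet d} (A : Finset (Tile S)) (δ : ℝ)
    (ρ : Finset (Tile S)) : ℝ :=
  |(patternCount A ρ : ℝ) - δ * (volume (region (ρ : Set (Tile S)))).toReal|

/-! ### the perimeter is finite -/

theorem carrier_frontier_lt_top {S : ProtoSet d} (τ : Tile S) :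
    μH[(d : ℝ) - 1] (frontier (carrier τ)) < ⊤ := by
  have h : carrier τ = (IsometryEquiv.subRight τ.2) ⁻¹' (S.shape τ.1) := rfl
  have h2 : frontier (carrier τ) = (IsometryEquiv.subRight τ.2) ⁻¹' (frontier (S.shape τ.1)) := by
    rw [h]
    exact ((IsometryEquiv.subRight τ.2).toHomeomorph.preimage_frontier _).symm
  rw [h2, IsometryEquiv.hausdorffMeasure_preimage]
  exact S.bdry τ.1

theorem isClosed_carrier {S : ProtoSet d} (τ : Tile S) : IsClosed (carrier τ) := by
  have h : carrier τ = (fun z => z - τ.2) ⁻¹' (S.shape τ.1) := rfl
  rw [h]
  exact (S.compact τ.1).isClosed.preimage (by fun_prop)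

theorem perimeterENN_ne_top {S : ProtoSet d} (ρ : Finset (Tile S)) : perimeterENN ρ ≠ ⊤ := by
  unfold perimeterENN
  have hsub : frontier (region (ρ : Set (Tile S))) ⊆ ⋃ τ ∈ ρ, frontier (carrier τ) := by
    intro z hz
    have hcl : IsClosed (region (ρ : Set (Tile S))) :=
      Set.Finite.isClosed_biUnion ρ.finite_toSet (fun τ _ => isClosed_carrier τ)
    have h1 : z ∈ region (ρ : Set (Tile S)) := hcl.frontier_subset hz
    have h2 : z ∉ interior (region (ρ : Set (Tile S))) := hz.2
    simp only [region, Set.mem_iUnion] at h1
    obtain ⟨τ, hτ, hzτ⟩ := h1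
    simp only [Set.mem_iUnion]
    refine ⟨τ, hτ, subset_closure hzτ, fun h3 => h2 ?_⟩
    refine interior_mono ?_ h3
    exact Set.subset_biUnion_of_mem (u := fun τ : Tile S => carrier τ) hτ
  refine (lt_of_le_of_lt (measure_mono hsub) ?_).ne
  exact (measure_biUnion_finset_le _ _).trans_lt
    (ENNReal.sum_lt_top.mpr (fun τ _ => carrier_frontier_lt_top τ))

end Pool.Agent.H50R3.AMR
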