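import Mathlib
import Pool.Agent.H50R3.AMR.Defs

/-!
Geometry of axis-parallel unit squares in the plane.
-/

set_option autoImplicit false

namespace Pool.Agent.H50R3.AMR

open MeasureTheory Metric

/-- unit square with lower left corner `p` -/
def sqAt (p : E 2) : Set (E 2) := {z | ∀ i, p i ≤ z i ∧ z i ≤ p i + 1}

noncomputable abbrev φ : E 2 ≃ₜ (Fin 2 → ℝ) := (EuclideanSpace.equiv (Fin 2) ℝ).toHomeomorph

theorem φ_apply (z : E 2) (i : Fin 2) : φ z i = z i := rfl

theorem sqAt_eq (p : E 2) :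
    sqAt p = φ ⁻¹' (Set.univ.pi (fun i => Set.Icc (p i) (p i + 1))) := by
  ext z
  simp only [sqAt, Set.mem_ofPred_eq, Set.mem_preimage, Set.mem_pi, Set.mem_univ, true_implies,
    Set.mem_Icc, φ_apply]

theorem interior_sqAt (p : E 2) : interior (sqAt p) = {z | ∀ i, p i < z i ∧ z i < p i + 1} := by
  rw [sqAt_eq, ← Homeomorph.preimage_interior, interior_pi_set Set.finite_univ]
  ext z
  simp only [interior_Icc, Set.mem_ofPred_eq, Set.mem_preimage, Set.mem_pi, Set.mem_univ,
    true_implies, Set.mem_Ioo, φ_apply]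

theorem interior_sqAt' (p : E 2) :
    interior (sqAt p) = φ ⁻¹' (Set.univ.pi (fun i => Set.Ioo (p i) (p i + 1))) := by
  rw [interior_sqAt]
  ext z
  simp only [Set.mem_ofPred_eq, Set.mem_preimage, Set.mem_pi, Set.mem_univ,
    true_implies, Set.mem_Ioo, φ_apply]

theorem closure_interior_sqAt (p : E 2) : closure (interior (sqAt p)) = sqAt p := by
  rw [interior_sqAt', ← Homeomorph.preimage_closure, closure_pi_set, sqAt_eq]
  congr 1
  congr 1
  funext i
  exact closure_Ioo (by linarith)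

theorem isCompact_sqAt (p : E 2) : IsCompact (sqAt p) := by
  rw [sqAt_eq, Homeomorph.isCompact_preimage]
  exact isCompact_univ_pi (fun i => isCompact_Icc)

theorem isClosed_sqAt (p : E 2) : IsClosed (sqAt p) := (isCompact_sqAt p).isClosed

theorem volume_sqAt (p : E 2) : volume (sqAt p) = 1 := by
  have h := (PiLp.volume_preserving_ofLp (Fin 2)).measure_preimage
    (s := Set.univ.pi (fun i => Set.Icc (p i) (p i + 1)))
    ((MeasurableSet.univ_pi (fun i => measurableSet_Icc)).nullMeasurableSet)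
  have e : sqAt p = WithLp.ofLp ⁻¹' (Set.univ.pi (fun i => Set.Icc (p i) (p i + 1))) := by
    rw [sqAt_eq]; rfl
  rw [e]
  refine h.trans ?_
  rw [Set.pi_univ_Icc, Real.volume_Icc_pi]
  simp

theorem convex_sqAt (p : E 2) : Convex ℝ (sqAt p) := by
  intro x hx y hy a b ha hb hab i
  have h1 := hx i
  have h2 := hy i
  have e : (a • x + b • y) i = a * x i + b * y i := rfl
  rw [e]
  have hb' : b = 1 - a := by linarith
  subst hb'
  constructor
  · nlinarith [mul_le_mul_of_nonneg_left h1.1 ha, mul_le_mul_of_nonneg_left h2.1 hb]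
  · nlinarith [mul_le_mul_of_nonneg_left h1.2 ha, mul_le_mul_of_nonneg_left h2.2 hb]

theorem volume_frontier_sqAt (p : E 2) : volume (frontier (sqAt p)) = 0 :=
  (convex_sqAt p).addHaar_frontier volume

/-- lattice points -/
noncomputable def pt (x y : ℤ) : E 2 := !₂[(x : ℝ), (y : ℝ)]

@[simp] theorem pt_zero (x y : ℤ) : (pt x y) 0 = (x : ℝ) := by simp [pt]
@[simp] theorem pt_one (x y : ℤ) : (pt x y) 1 = (y : ℝ) := by simp [pt]

theorem ext2 {p q : E 2} (h0 : p 0 = q 0) (h1 : p 1 = q 1) : p = q := by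
  ext i
  fin_cases i
  · exact h0
  · exact h1

theorem pt_add (x y x' y' : ℤ) : pt x y + pt x' y' = pt (x + x') (y + y') := by
  apply ext2 <;> simp

theorem pt_00 : pt 0 0 = 0 := by apply ext2 <;> simp

theorem dist_le_of_coord {p q : E 2} {D : ℝ} (h : ∀ i, |p i - q i| ≤ D) : dist p q ≤ 2 * D := by
  have hD : 0 ≤ D := le_trans (abs_nonneg _) (h 0)
  rw [EuclideanSpace.dist_eq, Fin.sum_univ_two]
  rw [show 2 * D = Real.sqrt ((2 * D)^2) from (Real.sqrt_sq (by positivity)).symm]
  apply Real.sqrt_le_sqrt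
  have h0 := h 0
  have h1 := h 1
  rw [Real.dist_eq, Real.dist_eq, sq_abs, sq_abs]
  have a0 := sq_le_sq' (abs_le.mp h0).1 (abs_le.mp h0).2
  have a1 := sq_le_sq' (abs_le.mp h1).1 (abs_le.mp h1).2
  nlinarith

theorem coord_le_dist (p q : E 2) (i : Fin 2) : |p i - q i| ≤ dist p q := by
  rw [dist_eq_norm]
  have := PiLp.norm_apply_le (p - q) i
  exact this

theorem frontier_sqAt_subset (p : E 2) :
    frontier (sqAt p) ⊆ (segment ℝ p (p + pt 0 1)) ∪ (segment ℝ (p + pt 1 0) (p + pt 1 1)) ∪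
      ((segment ℝ p (p + pt 1 0)) ∪ (segment ℝ (p + pt 0 1) (p + pt 1 1))) := by
  intro z hz
  have hz1 : z ∈ sqAt p := (isClosed_sqAt p).frontier_subset hz
  have hz2 : z ∉ interior (sqAt p) := hz.2
  rw [interior_sqAt] at hz2
  have h0 := hz1 0
  have h1 := hz1 1
  have : z 0 = p 0 ∨ z 0 = p 0 + 1 ∨ z 1 = p 1 ∨ z 1 = p 1 + 1 := by
    by_contra hcon
    push Not at hcon
    apply hz2
    intro i
    fin_cases i
    · exact ⟨lt_of_le_of_ne h0.1 (Ne.symm hcon.1), lt_of_le_of_ne h0.2 hcon.2.1⟩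
    · exact ⟨lt_of_le_of_ne h1.1 (Ne.symm hcon.2.2.1), lt_of_le_of_ne h1.2 hcon.2.2.2⟩
  rcases this with h | h | h | h
  · left; left
    refine ⟨1 - (z 1 - p 1), z 1 - p 1, by linarith, by linarith, by ring, ?_⟩
    apply ext2
    · simp; rw [h]; ring
    · simp; ring
  · left; right
    refine ⟨1 - (z 1 - p 1), z 1 - p 1, by linarith, by linarith, by ring, ?_⟩
    apply ext2
    · simp; rw [h]; ring
    · simp; ring
  · right; left
    refine ⟨1 - (z 0 - p 0), z 0 - p 0, by linarith, by linarith, by ring, ?_⟩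
    apply ext2
    · simp; ring
    · simp; rw [h]; ring
  · right; right
    refine ⟨1 - (z 0 - p 0), z 0 - p 0, by linarith, by linarith, by ring, ?_⟩
    apply ext2
    · simp; ring
    · simp; rw [h]; ring

theorem two_sub_one : (((2 : ℕ) : ℝ) - 1) = 1 := by norm_num

theorem perim_sqAt (p : E 2) : μH[((2 : ℕ) : ℝ) - 1] (frontier (sqAt p)) < ⊤ := by
  rw [two_sub_one]
  refine lt_of_le_of_lt (measure_mono (frontier_sqAt_subset p)) ?_
  have hs : ∀ x y : E 2, μH[1] (segment ℝ x y) < ⊤ := by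
    intro x y
    rw [hausdorffMeasure_segment]
    exact edist_lt_top _ _
  refine measure_union_lt_top (measure_union_lt_top (hs _ _) (hs _ _))
    (measure_union_lt_top (hs _ _) (hs _ _))

/-- open edges -/
def oseg (i j : Fin 2) (s : ℝ) (p : E 2) : Set (E 2) :=
  {z | z i = p i + s ∧ p j < z j ∧ z j < p j + 1}

theorem continuous_coord (i : Fin 2) : Continuous (fun z : E 2 => z i) := by
  fun_prop

theorem measurableSet_oseg (i j : Fin 2) (s : ℝ) (p : E 2) : MeasurableSet (oseg i j s p) := by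
  have h1 : MeasurableSet {z : E 2 | z i = p i + s} :=
    (isClosed_eq (continuous_coord i) continuous_const).measurableSet
  have h2 : MeasurableSet {z : E 2 | p j < z j} :=
    (isOpen_lt continuous_const (continuous_coord j)).measurableSet
  have h3 : MeasurableSet {z : E 2 | z j < p j + 1} :=
    (isOpen_lt (continuous_coord j) continuous_const).measurableSet
  exact h1.inter (h2.inter h3)

theorem lipschitz_coord (j : Fin 2) : LipschitzWith 1 (fun z : E 2 => z j) := by
  apply LipschitzWith.of_dist_le_mul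
  intro x y
  rw [Real.dist_eq, NNReal.coe_one, one_mul]
  exact coord_le_dist x y j

theorem one_le_oseg (i j : Fin 2) (hij : i ≠ j) (s : ℝ) (p : E 2) :
    1 ≤ μH[1] (oseg i j s p) := by
  have h1 := (lipschitz_coord j).hausdorffMeasure_image_le (d := 1) zero_le_one (oseg i j s p)
  have h2 : (fun z : E 2 => z j) '' (oseg i j s p) = Set.Ioo (p j) (p j + 1) := by
    ext a
    constructor
    · rintro ⟨z, ⟨_, hz1, hz2⟩, rfl⟩
      exact ⟨hz1, hz2⟩
    · rintro ⟨ha1, ha2⟩
      refine ⟨WithLp.toLp 2 (fun k => if k = i then p i + s else a), ⟨?_, ?_, ?_⟩, ?_⟩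
      · simp
      · simp [hij.symm, ha1]
      · simp [hij.symm, ha2]
      · simp [hij.symm]
  rw [h2, hausdorffMeasure_real, Real.volume_Ioo] at h1
  simpa using h1

end Pool.Agent.H50R3.AMR
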