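import Mathlib
import Pool.Agent.H50R3.AMR.Sq

/-!
From a `ℤ²`-subshift of finite type to a matching rule for labelled unit squares.
-/

set_option autoImplicit false

namespace Pool.Agent.H50R3.AMR

open MeasureTheory Metric

/-- an aperiodic `ℤ²`-subshift of finite type -/
structure GridSys where
  Λ : Type
  fin : Finite Λ
  X : Set (ℤ → ℤ → Λ)
  ne : X.Nonempty
  shift : ∀ c ∈ X, ∀ a b : ℤ, (fun x y => c (x + a) (y + b)) ∈ X
  N : ℕ
  loc : ∀ c : ℤ → ℤ → Λ, (∀ x y, ∃ c' ∈ X, ∀ a b : ℤ, |a| ≤ N → |b| ≤ N →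
    c (x + a) (y + b) = c' a b) → c ∈ X
  aper : ∀ c ∈ X, ∀ u v : ℤ, (∀ x y, c (x + u) (y + v) = c x y) → u = 0 ∧ v = 0

theorem mem_sqAt_self (p : E 2) : p ∈ sqAt p := fun i => ⟨le_rfl, by linarith⟩

namespace GridSys

variable (G : GridSys)

/-- labelled unit squares -/
def S : ProtoSet 2 where
  F := G.Λ
  finite := G.fin
  shape := fun _ => sqAt 0
  nonempty := fun _ => ⟨0, mem_sqAt_self 0⟩
  compact := fun _ => isCompact_sqAt 0
  regular := fun _ => closure_interior_sqAt 0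
  bdry := fun _ => perim_sqAt 0

variable {G}

theorem carrier_eq (τ : Tile G.S) : carrier τ = sqAt τ.2 := by
  ext z
  show z - τ.2 ∈ sqAt 0 ↔ z ∈ sqAt τ.2
  unfold sqAt
  simp only [Set.mem_ofPred_eq]
  have e : ∀ i, (z - τ.2) i = z i - τ.2 i := fun i => rfl
  have e0 : ∀ i, (0 : E 2) i = 0 := fun i => rfl
  constructor
  · intro h i
    have := h i
    rw [e, e0] at this
    constructor <;> linarith [this.1, this.2]
  · intro h i
    have := h i
    rw [e, e0]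
    constructor <;> linarith [this.1, this.2]

variable (G) in
/-- coordinate radius of local consistency -/
def D : ℕ := G.N + 3

variable (G) in
/-- window half-width -/
def W : ℤ := 2 * (G.D : ℤ) + 4

/-- full grid patch -/
def gridSet (c : ℤ → ℤ → G.Λ) (v : E 2) : Set (Tile G.S) :=
  {τ | ∃ a b : ℤ, τ = (c a b, v + pt a b)}

/-- window patch -/
def win (c : ℤ → ℤ → G.Λ) : Set (Tile G.S) :=
  {τ | ∃ a b : ℤ, |a| ≤ G.W ∧ |b| ≤ G.W ∧ τ = (c a b, pt a b)}

theorem eq_of_close {P : Set (Tile G.S)} (hP : Packed P) {τ τ' : Tile G.S} (h : τ ∈ P)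
    (h' : τ' ∈ P) (hc : ∀ i, |τ.2 i - τ'.2 i| < 1) : τ = τ' := by
  by_contra hne
  have := hP τ h τ' h' hne
  rw [carrier_eq, carrier_eq, interior_sqAt, interior_sqAt, Set.disjoint_left] at this
  refine @this (WithLp.toLp 2 (fun i => (τ.2 i + τ'.2 i + 1) / 2)) ?_ ?_
  · intro i
    have := abs_lt.mp (hc i)
    simp only
    constructor <;> linarith [this.1, this.2]
  · intro i
    have := abs_lt.mp (hc i)
    simp only
    constructor <;> linarith [this.1, this.2]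

theorem eq_of_pos_eq {P : Set (Tile G.S)} (hP : Packed P) {τ τ' : Tile G.S} (h : τ ∈ P)
    (h' : τ' ∈ P) (hc : τ.2 = τ'.2) : τ = τ' := by
  apply eq_of_close hP h h'
  intro i
  rw [hc]; simp

theorem pt_inj {a b a' b' : ℤ} (h : pt a b = pt a' b') : a = a' ∧ b = b' := by
  have h0 : (pt a b) 0 = (pt a' b') 0 := by rw [h]
  have h1 : (pt a b) 1 = (pt a' b') 1 := by rw [h]
  simp only [pt_zero, pt_one] at h0 h1
  exact ⟨by exact_mod_cast h0, by exact_mod_cast h1⟩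

theorem gridSet_packed (c : ℤ → ℤ → G.Λ) (v : E 2) : Packed (gridSet c v) := by
  rintro τ ⟨a, b, rfl⟩ τ' ⟨a', b', rfl⟩ hne
  rw [carrier_eq, carrier_eq, interior_sqAt, interior_sqAt, Set.disjoint_left]
  intro z hz hz'
  apply hne
  have h0 := hz 0
  have h1 := hz 1
  have h0' := hz' 0
  have h1' := hz' 1
  simp only [PiLp.add_apply, pt_zero, pt_one] at h0 h1 h0' h1'
  have ha : a = a' := by
    have h3 : (a : ℝ) < a' + 1 := by linarith [h0.1, h0'.2]
    have h4 : (a' : ℝ) < a + 1 := by linarith [h0'.1, h0.2]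
    have h3' : a < a' + 1 := by exact_mod_cast h3
    have h4' : a' < a + 1 := by exact_mod_cast h4
    omega
  have hb : b = b' := by
    have h3 : (b : ℝ) < b' + 1 := by linarith [h1.1, h1'.2]
    have h4 : (b' : ℝ) < b + 1 := by linarith [h1'.1, h1.2]
    have h3' : b < b' + 1 := by exact_mod_cast h3
    have h4' : b' < b + 1 := by exact_mod_cast h4
    omega
  rw [ha, hb]

theorem win_finite (c : ℤ → ℤ → G.Λ) : (win c).Finite := by
  have : win c ⊆ (fun p : ℤ × ℤ => ((c p.1 p.2, pt p.1 p.2) : Tile G.S)) ''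
      (Set.Icc (-G.W) G.W ×ˢ Set.Icc (-G.W) G.W) := by
    rintro τ ⟨a, b, ha, hb, rfl⟩
    exact ⟨(a, b), ⟨abs_le.mp ha, abs_le.mp hb⟩, rfl⟩
  exact (((Set.finite_Icc _ _).prod (Set.finite_Icc _ _)).image _).subset this

theorem win_subset (c : ℤ → ℤ → G.Λ) : win c ⊆ gridSet c 0 := by
  rintro τ ⟨a, b, _, _, rfl⟩
  exact ⟨a, b, by rw [zero_add]⟩

theorem Packed.mono' {P Q : Set (Tile G.S)} (h : Packed Q) (hPQ : P ⊆ Q) : Packed P :=
  fun τ hτ τ' hτ' hne => h τ (hPQ hτ) τ' (hPQ hτ') hne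

theorem windows_finite : {A : Set (Tile G.S) | ∃ c ∈ G.X, A = win c}.Finite := by
  have := G.fin
  let I := {a : ℤ // a ∈ Set.Icc (-G.W) G.W}
  have : Finite I := (Set.finite_Icc (-G.W) G.W).to_subtype
  let g : (I × I → G.Λ) → Set (Tile G.S) := fun f =>
    {τ | ∃ p : I × I, τ = (f p, pt p.1.1 p.2.1)}
  refine (Set.finite_range g).subset ?_
  rintro A ⟨c, _, rfl⟩
  refine ⟨fun p => c p.1.1 p.2.1, ?_⟩
  ext τ
  constructor
  · rintro ⟨p, rfl⟩
    exact ⟨p.1.1, p.2.1, abs_le.mpr p.1.2, abs_le.mpr p.2.2, rfl⟩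
  · rintro ⟨a, b, ha, hb, rfl⟩
    exact ⟨(⟨a, abs_le.mp ha⟩, ⟨b, abs_le.mp hb⟩), rfl⟩

variable (G) in
/-- the matching rule: all windows of configurations -/
def M : MatchingRule G.S where
  r := 2 * (G.D : ℝ) + 1
  r_pos := by positivity
  allowed := {A | ∃ c ∈ G.X, A = win c}
  allowed_finite := windows_finite
  allowed_patch := by
    rintro A ⟨c, _, rfl⟩
    exact ⟨win_finite c, Packed.mono' (gridSet_packed c 0) (win_subset c)⟩

theorem M_r : G.M.r = 2 * (G.D : ℝ) + 1 := rfl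

theorem D_ge : (3 : ℝ) ≤ (G.D : ℝ) := by
  unfold D; push_cast
  have : (0 : ℝ) ≤ G.N := by positivity
  linarith

theorem D_ge_N : (G.N : ℝ) ≤ (G.D : ℝ) := by
  unfold D; push_cast; linarith

/-! ### existence of legal tilings -/

theorem gridSet_tiling (c : ℤ → ℤ → G.Λ) : IsTiling (gridSet c 0) := by
  refine ⟨gridSet_packed c 0, ?_⟩
  rw [Set.eq_univ_iff_forall]
  intro z
  simp only [region, Set.mem_iUnion]
  refine ⟨(c ⌊z 0⌋ ⌊z 1⌋, 0 + pt ⌊z 0⌋ ⌊z 1⌋), ⟨_, _, rfl⟩, ?_⟩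
  rw [carrier_eq, zero_add]
  intro i
  fin_cases i
  · simp only [Fin.zero_eta, pt_zero]
    exact ⟨Int.floor_le _, (Int.lt_floor_add_one _).le⟩
  · simp only [Fin.mk_one, pt_one]
    exact ⟨Int.floor_le _, (Int.lt_floor_add_one _).le⟩

theorem gridSet_legal {c : ℤ → ℤ → G.Λ} (hc : c ∈ G.X) : Legal G.M (gridSet c 0) := by
  intro x
  refine ⟨win (fun a b => c (a + ⌊x 0⌋) (b + ⌊x 1⌋)), ⟨_, G.shift c hc _ _, rfl⟩,
    {σ ∈ win (fun a b => c (a + ⌊x 0⌋) (b + ⌊x 1⌋)) |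
      ((σ.1, pt ⌊x 0⌋ ⌊x 1⌋ + σ.2) : Tile G.S) ∈
        {τ ∈ gridSet c 0 | (carrier τ ∩ ball x G.M.r).Nonempty}}, fun σ h => h.1,
    pt ⌊x 0⌋ ⌊x 1⌋, ?_⟩
  ext τ
  constructor
  · rintro ⟨⟨a, b, rfl⟩, hm⟩
    refine ⟨(c a b, pt (a - ⌊x 0⌋) (b - ⌊x 1⌋)), ⟨⟨a - ⌊x 0⌋, b - ⌊x 1⌋, ?_, ?_, ?_⟩, ?_⟩, ?_⟩
    · obtain ⟨z, hz1, hz2⟩ := hm
      rw [carrier_eq, zero_add] at hz1
      have h0 := hz1 0
      rw [pt_zero] at h0
      have h1 := lt_of_le_of_lt (coord_le_dist z x 0) (mem_ball.mp hz2)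
      rw [M_r, abs_lt] at h1
      have f1 := Int.floor_le (x 0)
      have f2 := Int.lt_floor_add_one (x 0)
      have g1 : ((a - ⌊x 0⌋ : ℤ) : ℝ) ≤ ((G.W : ℤ) : ℝ) := by
        unfold W; push_cast; linarith [h0.1, h0.2, h1.1, h1.2]
      have g2 : ((-G.W : ℤ) : ℝ) ≤ ((a - ⌊x 0⌋ : ℤ) : ℝ) := by
        unfold W; push_cast; linarith [h0.1, h0.2, h1.1, h1.2]
      rw [abs_le]
      exact ⟨by exact_mod_cast g2, by exact_mod_cast g1⟩
    · obtain ⟨z, hz1, hz2⟩ := hm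
      rw [carrier_eq, zero_add] at hz1
      have h0 := hz1 1
      rw [pt_one] at h0
      have h1 := lt_of_le_of_lt (coord_le_dist z x 1) (mem_ball.mp hz2)
      rw [M_r, abs_lt] at h1
      have f1 := Int.floor_le (x 1)
      have f2 := Int.lt_floor_add_one (x 1)
      have g1 : ((b - ⌊x 1⌋ : ℤ) : ℝ) ≤ ((G.W : ℤ) : ℝ) := by
        unfold W; push_cast; linarith [h0.1, h0.2, h1.1, h1.2]
      have g2 : ((-G.W : ℤ) : ℝ) ≤ ((b - ⌊x 1⌋ : ℤ) : ℝ) := by
        unfold W; push_cast; linarith [h0.1, h0.2, h1.1, h1.2]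
      rw [abs_le]
      exact ⟨by exact_mod_cast g2, by exact_mod_cast g1⟩
    · show ((c a b, pt (a - ⌊x 0⌋) (b - ⌊x 1⌋)) : Tile G.S) =
        (c (a - ⌊x 0⌋ + ⌊x 0⌋) (b - ⌊x 1⌋ + ⌊x 1⌋), pt (a - ⌊x 0⌋) (b - ⌊x 1⌋))
      rw [sub_add_cancel, sub_add_cancel]
      rfl
    · have e : ((c a b, pt ⌊x 0⌋ ⌊x 1⌋ + pt (a - ⌊x 0⌋) (b - ⌊x 1⌋)) : Tile G.S) =
          (c a b, 0 + pt a b) := by
        rw [pt_add, zero_add]
        congr 2 <;> ring
      show ((c a b, pt ⌊x 0⌋ ⌊x 1⌋ + pt (a - ⌊x 0⌋) (b - ⌊x 1⌋)) : Tile G.S) ∈ _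
      rw [e]
      exact ⟨⟨a, b, rfl⟩, hm⟩
    · show ((c a b, pt ⌊x 0⌋ ⌊x 1⌋ + pt (a - ⌊x 0⌋) (b - ⌊x 1⌋)) : Tile G.S) = _
      rw [pt_add, zero_add]
      congr 2 <;> ring
  · rintro ⟨σ, ⟨_, hσ⟩, rfl⟩
    exact hσ

/-! ### local consistency -/

theorem local_lemma {P : Set (Tile G.S)} (hP : Legal G.M P) {τ : Tile G.S} (hτ : τ ∈ P) :
    ∃ c ∈ G.X, c 0 0 = τ.1 ∧ ∀ τ' ∈ P, (∀ i, |τ'.2 i - τ.2 i| ≤ G.D) →
      ∃ a b : ℤ, τ'.2 = τ.2 + pt a b ∧ τ'.1 = c a b := by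
  obtain ⟨A, ⟨c0, hc0, rfl⟩, B, hB, v, heq⟩ := hP τ.2
  have key : ∀ τ' ∈ P, (∀ i, |τ'.2 i - τ.2 i| ≤ G.D) →
      ∃ a b : ℤ, τ'.2 = v + pt a b ∧ τ'.1 = c0 a b := by
    intro τ' hτ' hi
    have h1 : τ' ∈ {τ' ∈ P | (carrier τ' ∩ ball τ.2 G.M.r).Nonempty} := by
      refine ⟨hτ', τ'.2, ?_, ?_⟩
      · rw [carrier_eq]; exact mem_sqAt_self _
      · rw [mem_ball, M_r]
        have := dist_le_of_coord hi
        linarith
    rw [heq] at h1
    obtain ⟨σ, hσ, rfl⟩ := h1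
    obtain ⟨a, b, _, _, rfl⟩ := hB hσ
    exact ⟨a, b, rfl, rfl⟩
  obtain ⟨a, b, h1, h2⟩ := key τ hτ (by intro i; simp)
  refine ⟨fun x y => c0 (x + a) (y + b), G.shift c0 hc0 a b, ?_, ?_⟩
  · simp only [zero_add]; exact h2.symm
  · intro τ' hτ' hi
    obtain ⟨a', b', h1', h2'⟩ := key τ' hτ' hi
    refine ⟨a' - a, b' - b, ?_, ?_⟩
    · rw [h1, h1', add_assoc, pt_add]
      congr 2 <;> ring
    · rw [h2']; simp

/-- if `τ'` sits at an integer offset, its label is the one predicted -/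
theorem local_lemma' {P : Set (Tile G.S)} (hP : Legal G.M P) {τ : Tile G.S} (hτ : τ ∈ P) :
    ∃ c ∈ G.X, c 0 0 = τ.1 ∧ (∀ τ' ∈ P, (∀ i, |τ'.2 i - τ.2 i| ≤ G.D) →
      ∃ a b : ℤ, τ'.2 = τ.2 + pt a b ∧ τ'.1 = c a b) ∧
      ∀ τ' ∈ P, ∀ a b : ℤ, |a| ≤ G.D → |b| ≤ G.D → τ'.2 = τ.2 + pt a b → τ'.1 = c a b := by
  obtain ⟨c, hc, h0, hl⟩ := local_lemma hP hτ
  refine ⟨c, hc, h0, hl, ?_⟩
  intro τ' hτ' a b ha hb he
  obtain ⟨a', b', h1, h2⟩ := hl τ' hτ' (by
    intro i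
    rw [he]
    fin_cases i
    · simp only [Fin.zero_eta, PiLp.add_apply, pt_zero, add_sub_cancel_left]
      exact_mod_cast ha
    · simp only [Fin.mk_one, PiLp.add_apply, pt_one, add_sub_cancel_left]
      exact_mod_cast hb)
  rw [he] at h1
  obtain ⟨rfl, rfl⟩ := pt_inj (add_left_cancel h1)
  exact h2

/-! ### legal tilings are grids -/

theorem step {T : Set (Tile G.S)} (hT : IsTiling T) (hL : Legal G.M T) {τ : Tile G.S} (hτ : τ ∈ T)
    (dx dy : ℤ) (hdx : |dx| ≤ 1) (hdy : |dy| ≤ 1) : ∃ τ' ∈ T, τ'.2 = τ.2 + pt dx dy := by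
  obtain ⟨c, hc, h0, hl⟩ := local_lemma hL hτ
  let z : E 2 := !₂[τ.2 0 + dx + 1/2, τ.2 1 + dy + 1/2]
  have hz0 : z 0 = τ.2 0 + dx + 1/2 := by simp [z]
  have hz1 : z 1 = τ.2 1 + dy + 1/2 := by simp [z]
  have hz : z ∈ region T := by rw [hT.2]; trivial
  simp only [region, Set.mem_iUnion] at hz
  obtain ⟨τ', hτ', hz⟩ := hz
  rw [carrier_eq] at hz
  have a0 := hz 0
  have a1 := hz 1
  rw [hz0] at a0
  rw [hz1] at a1
  have hdx' : |(dx : ℝ)| ≤ 1 := by exact_mod_cast hdx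
  have hdy' : |(dy : ℝ)| ≤ 1 := by exact_mod_cast hdy
  rw [abs_le] at hdx' hdy'
  have hD := D_ge (G := G)
  obtain ⟨a, b, h1, h2⟩ := hl τ' hτ' (by
    intro i
    rw [abs_le]
    fin_cases i
    · simp only [Fin.zero_eta]
      constructor <;> linarith [a0.1, a0.2]
    · simp only [Fin.mk_one]
      constructor <;> linarith [a1.1, a1.2])
  refine ⟨τ', hτ', ?_⟩
  rw [h1] at a0 a1
  simp only [PiLp.add_apply, pt_zero, pt_one] at a0 a1
  have ha : a = dx := by
    have h3 : (a : ℝ) < dx + 1 := by linarith [a0.1, a0.2]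
    have h4 : (dx : ℝ) < a + 1 := by linarith [a0.1, a0.2]
    have h3' : a < dx + 1 := by exact_mod_cast h3
    have h4' : dx < a + 1 := by exact_mod_cast h4
    omega
  have hb : b = dy := by
    have h3 : (b : ℝ) < dy + 1 := by linarith [a1.1, a1.2]
    have h4 : (dy : ℝ) < b + 1 := by linarith [a1.1, a1.2]
    have h3' : b < dy + 1 := by exact_mod_cast h3
    have h4' : dy < b + 1 := by exact_mod_cast h4
    omega
  rw [h1, ha, hb]

theorem tiling_grid {T : Set (Tile G.S)} (hT : IsTiling T) (hL : Legal G.M T) :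
    ∃ c ∈ G.X, ∃ v, T = gridSet c v := by
  obtain ⟨τ0, hτ0⟩ : ∃ τ0, τ0 ∈ T := by
    have hz : (0 : E 2) ∈ region T := by rw [hT.2]; trivial
    simp only [region, Set.mem_iUnion] at hz
    obtain ⟨τ', hτ', _⟩ := hz
    exact ⟨τ', hτ'⟩
  have hrow : ∀ x : ℤ, ∃ τ ∈ T, τ.2 = τ0.2 + pt x 0 := by
    intro x
    induction x using Int.induction_on with
    | zero => exact ⟨τ0, hτ0, by rw [pt_00, add_zero]⟩
    | succ i ih =>
      obtain ⟨τ, hτ, he⟩ := ih
      obtain ⟨τ', hτ', he'⟩ := step hT hL hτ 1 0 (by norm_num) (by norm_num)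
      exact ⟨τ', hτ', by rw [he', he, add_assoc, pt_add, add_zero]⟩
    | pred i ih =>
      obtain ⟨τ, hτ, he⟩ := ih
      obtain ⟨τ', hτ', he'⟩ := step hT hL hτ (-1) 0 (by norm_num) (by norm_num)
      exact ⟨τ', hτ', by rw [he', he, add_assoc, pt_add, add_zero]; rfl⟩
  have hall : ∀ x y : ℤ, ∃ τ ∈ T, τ.2 = τ0.2 + pt x y := by
    intro x y
    induction y using Int.induction_on with
    | zero => exact hrow x
    | succ i ih =>
      obtain ⟨τ, hτ, he⟩ := ih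
      obtain ⟨τ', hτ', he'⟩ := step hT hL hτ 0 1 (by norm_num) (by norm_num)
      exact ⟨τ', hτ', by rw [he', he, add_assoc, pt_add, add_zero]⟩
    | pred i ih =>
      obtain ⟨τ, hτ, he⟩ := ih
      obtain ⟨τ', hτ', he'⟩ := step hT hL hτ 0 (-1) (by norm_num) (by norm_num)
      exact ⟨τ', hτ', by rw [he', he, add_assoc, pt_add, add_zero]; rfl⟩
  choose t htT htp using hall
  let c : ℤ → ℤ → G.Λ := fun x y => (t x y).1
  refine ⟨c, ?_, τ0.2, ?_⟩
  · apply G.loc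
    intro x y
    obtain ⟨c', hc', h0, hl, hl'⟩ := local_lemma' hL (htT x y)
    refine ⟨c', hc', ?_⟩
    intro a b ha hb
    have hD : (G.N : ℤ) ≤ (G.D : ℤ) := by unfold D; push_cast; linarith
    exact hl' (t (x+a) (y+b)) (htT _ _) a b (ha.trans hD) (hb.trans hD)
      (by rw [htp, htp, add_assoc, pt_add])
  · ext τ
    constructor
    · intro hτ
      have : τ = t ⌊τ.2 0 - τ0.2 0⌋ ⌊τ.2 1 - τ0.2 1⌋ := by
        apply eq_of_close hT.1 hτ (htT _ _)
        intro i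
        rw [htp, abs_lt]
        fin_cases i
        · simp only [Fin.zero_eta, PiLp.add_apply, pt_zero]
          have f1 := Int.floor_le (τ.2 0 - τ0.2 0)
          have f2 := Int.lt_floor_add_one (τ.2 0 - τ0.2 0)
          constructor <;> linarith
        · simp only [Fin.mk_one, PiLp.add_apply, pt_one]
          have f1 := Int.floor_le (τ.2 1 - τ0.2 1)
          have f2 := Int.lt_floor_add_one (τ.2 1 - τ0.2 1)
          constructor <;> linarith
      refine ⟨⌊τ.2 0 - τ0.2 0⌋, ⌊τ.2 1 - τ0.2 1⌋, ?_⟩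
      conv_lhs => rw [this]
      exact Prod.ext rfl (htp _ _)
    · rintro ⟨a, b, rfl⟩
      have : ((c a b, τ0.2 + pt a b) : Tile G.S) = t a b := Prod.ext rfl (htp _ _).symm
      show ((c a b, τ0.2 + pt a b) : Tile G.S) ∈ T
      rw [this]
      exact htT a b

theorem nonperiodic {T : Set (Tile G.S)} (hT : IsTiling T) (hL : Legal G.M T) :
    ¬ IsPeriodic T := by
  rintro ⟨u, hu, hper⟩
  obtain ⟨c, hc, v, rfl⟩ := tiling_grid hT hL
  have key : ∀ x y : ℤ, ∃ a b : ℤ, c x y = c a b ∧ u + pt x y = pt a b := by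
    intro x y
    have h1 : ((c x y, u + (v + pt x y)) : Tile G.S) ∈ translate u (gridSet c v) :=
      ⟨(c x y, v + pt x y), ⟨x, y, rfl⟩, rfl⟩
    rw [hper] at h1
    obtain ⟨a, b, hab⟩ := h1
    have h2 := congrArg Prod.fst hab
    have h3 := congrArg Prod.snd hab
    simp only at h2 h3
    refine ⟨a, b, h2, ?_⟩
    rw [← add_assoc, add_comm u v, add_assoc] at h3
    exact add_left_cancel h3
  obtain ⟨a, b, _, hab⟩ := key 0 0
  rw [pt_00, add_zero] at hab
  have hp : ∀ x y, c (x + a) (y + b) = c x y := by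
    intro x y
    obtain ⟨a', b', h1, h2⟩ := key x y
    rw [hab, pt_add] at h2
    obtain ⟨h3, h4⟩ := pt_inj h2
    rw [h1, ← h3, ← h4, add_comm x, add_comm y]
  obtain ⟨rfl, rfl⟩ := G.aper c hc a b hp
  exact hu (by rw [hab, pt_00])

/-! ### volume of regions -/

theorem region_eq (ρ : Finset (Tile G.S)) :
    region (ρ : Set (Tile G.S)) = ⋃ τ ∈ ρ, sqAt τ.2 := by
  unfold region
  simp only [carrier_eq, Finset.mem_coe]

theorem volume_region {P : Set (Tile G.S)} (hP : Packed P) (ρ : Finset (Tile G.S))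
    (hρ : (ρ : Set (Tile G.S)) ⊆ P) : volume (region (ρ : Set (Tile G.S))) = ρ.card := by
  rw [region_eq, measure_biUnion_finset₀]
  · simp [volume_sqAt]
  · intro τ hτ τ' hτ' hne
    have hd := hP τ (hρ hτ) τ' (hρ hτ') hne
    rw [carrier_eq, carrier_eq] at hd
    show volume (sqAt τ.2 ∩ sqAt τ'.2) = 0
    have hsub : sqAt τ.2 ∩ sqAt τ'.2 ⊆ frontier (sqAt τ.2) ∪ frontier (sqAt τ'.2) := by
      rintro z ⟨h1, h2⟩
      by_contra hcon
      rw [Set.mem_union, not_or] at hcon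
      have i1 : z ∈ interior (sqAt τ.2) := by
        by_contra hi
        exact hcon.1 ⟨subset_closure h1, hi⟩
      have i2 : z ∈ interior (sqAt τ'.2) := by
        by_contra hi
        exact hcon.2 ⟨subset_closure h2, hi⟩
      exact Set.disjoint_left.mp hd i1 i2
    refine measure_mono_null hsub ?_
    rw [measure_union_null_iff]
    exact ⟨volume_frontier_sqAt _, volume_frontier_sqAt _⟩
  · intro τ _
    exact (isClosed_sqAt _).measurableSet.nullMeasurableSet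

/-! ### boundary edges -/

theorem edge_card_le {P : Set (Tile G.S)} (hP : Packed P) (hL : Legal G.M P)
    (ρ : Finset (Tile G.S)) (hρ : (ρ : Set (Tile G.S)) ⊆ P) (i j : Fin 2) (hij : i ≠ j)
    (s : ℝ) (hs : s = 0 ∨ s = 1) (ε : Finset (Tile G.S)) (hε : ε ⊆ ρ)
    (hmiss : ∀ e ∈ ε, ∀ τ' ∈ ρ, ¬ (τ'.2 i = e.2 i + (2 * s - 1) ∧ τ'.2 j = e.2 j)) :
    (ε.card : ENNReal) ≤ perimeterENN ρ := by
  have hij' : ∀ k : Fin 2, k = i ∨ k = j := by
    intro k; fin_cases i <;> fin_cases j <;> fin_cases k <;> simp_all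
  unfold perimeterENN
  rw [two_sub_one]
  have hfr : ∀ e ∈ ε, oseg i j s e.2 ⊆ frontier (region (ρ : Set (Tile G.S))) := by
    intro e he z hz
    obtain ⟨hzi, hzj1, hzj2⟩ := hz
    have heρ := hε he
    have hs01 : 0 ≤ s ∧ s ≤ 1 := by rcases hs with rfl | rfl <;> norm_num
    have hzR : z ∈ region (ρ : Set (Tile G.S)) := by
      rw [region_eq]
      simp only [Set.mem_iUnion]
      refine ⟨e, heρ, ?_⟩
      intro k
      rcases hij' k with rfl | rfl
      · rw [hzi]; constructor <;> linarith [hs01.1, hs01.2]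
      · exact ⟨hzj1.le, hzj2.le⟩
    refine ⟨subset_closure hzR, ?_⟩
    intro hint
    rw [mem_interior_iff_mem_nhds, Metric.mem_nhds_iff] at hint
    obtain ⟨ε0, hε0, hball⟩ := hint
    set δ : ℝ := min ε0 1 / 4 with hδ
    have hδ0 : 0 < δ := by
      have : 0 < min ε0 1 := lt_min hε0 one_pos
      positivity
    have hδ1 : δ ≤ 1/4 := by
      have := min_le_right ε0 1
      rw [hδ]; linarith
    have hδ2 : 2 * δ < ε0 := by
      have := min_le_left ε0 1
      have h2 : 0 < min ε0 1 := lt_min hε0 one_pos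
      rw [hδ]; linarith
    let z' : E 2 := WithLp.toLp 2 (fun k => if k = i then z i + δ * (2 * s - 1) else z k)
    have hz'i : z' i = z i + δ * (2 * s - 1) := by simp [z']
    have hz'j : z' j = z j := by simp [z', hij.symm]
    have hu : (2 * s - 1) = 1 ∨ (2 * s - 1) = -1 := by rcases hs with rfl | rfl <;> norm_num
    have hz'b : z' ∈ ball z ε0 := by
      rw [mem_ball]
      refine lt_of_le_of_lt (dist_le_of_coord (D := δ) ?_) hδ2
      intro k
      rcases hij' k with rfl | rfl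
      · rw [hz'i, add_sub_cancel_left]
        rcases hu with h | h <;> rw [h]
        · rw [mul_one, abs_of_pos hδ0]
        · rw [mul_neg, mul_one, abs_neg, abs_of_pos hδ0]
      · rw [hz'j, sub_self, abs_zero]; exact hδ0.le
    have hz'R := hball hz'b
    rw [region_eq] at hz'R
    simp only [Set.mem_iUnion] at hz'R
    obtain ⟨τ', hτ', hz'τ⟩ := hz'R
    have bi := hz'τ i
    have bj := hz'τ j
    rw [hz'i, hzi] at bi
    rw [hz'j] at bj
    obtain ⟨c, hc, h0, hl⟩ := local_lemma hL (hρ heρ)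
    have hD := D_ge (G := G)
    obtain ⟨a, b, h1, h2⟩ := hl τ' (hρ hτ') (by
      intro k
      rw [abs_le]
      rcases hij' k with rfl | rfl
      · rcases hu with h | h <;> rw [h] at bi
        · constructor <;> linarith [bi.1, bi.2, hs01.1, hs01.2]
        · constructor <;> linarith [bi.1, bi.2, hs01.1, hs01.2]
      · constructor <;> linarith [bj.1, bj.2])
    have hint : ∀ k : Fin 2, ∃ m : ℤ, τ'.2 k = e.2 k + m := by
      intro k
      rw [h1]
      fin_cases k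
      · exact ⟨a, by simp⟩
      · exact ⟨b, by simp⟩
    obtain ⟨mi, hmi⟩ := hint i
    obtain ⟨mj, hmj⟩ := hint j
    rw [hmi] at bi
    rw [hmj] at bj
    refine hmiss e he τ' hτ' ⟨?_, ?_⟩
    · rw [hmi]
      congr 1
      rcases hs with rfl | rfl
      · have h3 : (mi : ℝ) < 0 := by linarith [bi.1, bi.2]
        have h4 : (-2 : ℝ) < mi := by linarith [bi.1, bi.2]
        have h3' : mi < 0 := by exact_mod_cast h3
        have h4' : -2 < mi := by exact_mod_cast h4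
        have : mi = -1 := by omega
        rw [this]; norm_num
      · have h3 : (mi : ℝ) < 2 := by linarith [bi.1, bi.2]
        have h4 : (0 : ℝ) < mi := by linarith [bi.1, bi.2]
        have h3' : mi < 2 := by exact_mod_cast h3
        have h4' : 0 < mi := by exact_mod_cast h4
        have : mi = 1 := by omega
        rw [this]; norm_num
    · rw [hmj]
      have h3 : (mj : ℝ) < 1 := by linarith [bj.1, bj.2]
      have h4 : (-1 : ℝ) < mj := by linarith [bj.1, bj.2]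
      have h3' : mj < 1 := by exact_mod_cast h3
      have h4' : -1 < mj := by exact_mod_cast h4
      have : mj = 0 := by omega
      rw [this]; simp
  have hdisj : (ε : Set (Tile G.S)).PairwiseDisjoint (fun e => oseg i j s e.2) := by
    intro e he e' he' hne
    show Disjoint (oseg i j s e.2) (oseg i j s e'.2)
    rw [Set.disjoint_left]
    rintro z ⟨h1, h2, h3⟩ ⟨h1', h2', h3'⟩
    apply hne
    apply eq_of_close hP (hρ (hε he)) (hρ (hε he'))
    intro k
    rw [abs_lt]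
    rcases hij' k with rfl | rfl
    · constructor <;> linarith
    · constructor <;> linarith
  calc (ε.card : ENNReal) = ∑ e ∈ ε, (1 : ENNReal) := by simp
    _ ≤ ∑ e ∈ ε, μH[1] (oseg i j s e.2) := Finset.sum_le_sum (fun e _ => one_le_oseg i j hij s e.2)
    _ = μH[1] (⋃ e ∈ ε, oseg i j s e.2) :=
      (measure_biUnion_finset hdisj (fun e _ => measurableSet_oseg i j s e.2)).symm
    _ ≤ _ := measure_mono (by
      intro z hz
      simp only [Set.mem_iUnion] at hz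
      obtain ⟨e, he, hz⟩ := hz
      exact hfr e he hz)

end GridSys

end Pool.Agent.H50R3.AMR
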