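import Mathlib
import Pool.Agent.H50R3.AMR.Geo

/-!
Counting lemmas in legal finite regions.
-/

set_option autoImplicit false

namespace Pool.Agent.H50R3.AMR

open MeasureTheory Metric

namespace GridSys

variable {G : GridSys}

open Classical in
/-- tiles of `ρ` whose neighbour at offset `(a,b)` is missing in `ρ` -/
noncomputable def miss (ρ : Finset (Tile G.S)) (a b : ℤ) : Finset (Tile G.S) :=
  ρ.filter (fun τ => ¬ ∃ τ' ∈ ρ, τ'.2 = τ.2 + pt a b)

open Classical in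
/-- tiles of `ρ` with property `α` whose neighbour at offset `(a,b)` is in `ρ` with property `β` -/
noncomputable def pairs (ρ : Finset (Tile G.S)) (α β : G.Λ → Prop) (a b : ℤ) :
    Finset (Tile G.S) :=
  ρ.filter (fun τ => α τ.1 ∧ ∃ τ' ∈ ρ, τ'.2 = τ.2 + pt a b ∧ β τ'.1)

open Classical in
/-- tiles of `ρ` with property `α` -/
noncomputable def sel (ρ : Finset (Tile G.S)) (α : G.Λ → Prop) : Finset (Tile G.S) :=
  ρ.filter (fun τ => α τ.1)

theorem miss_zero (ρ : Finset (Tile G.S)) : miss ρ 0 0 = ∅ := by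
  classical
  unfold miss
  rw [Finset.filter_eq_empty_iff]
  intro τ hτ h
  exact h ⟨τ, hτ, by rw [pt_00, add_zero]⟩

variable {P : Set (Tile G.S)} {ρ : Finset (Tile G.S)}

theorem eq_of_pos {P : Set (Tile G.S)} {ρ : Finset (Tile G.S)} (hP : Packed P)
    (hρ : (ρ : Set (Tile G.S)) ⊆ P) {τ τ' : Tile G.S} (h : τ ∈ ρ)
    (h' : τ' ∈ ρ) (hc : τ.2 = τ'.2) : τ = τ' :=
  eq_of_pos_eq hP (hρ h) (hρ h') hc

theorem miss_add_card (hP : Packed P) (hρ : (ρ : Set (Tile G.S)) ⊆ P) (a b a' b' : ℤ) :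
    (miss ρ (a + a') (b + b')).card ≤ (miss ρ a b).card + (miss ρ a' b').card := by
  classical
  have hex : ∀ τ : Tile G.S, ∃ σ : Tile G.S, (∃ τ' ∈ ρ, τ'.2 = τ.2 + pt a b) →
      (σ ∈ ρ ∧ σ.2 = τ.2 + pt a b) := by
    intro τ
    by_cases h : ∃ τ' ∈ ρ, τ'.2 = τ.2 + pt a b
    · obtain ⟨σ, h1, h2⟩ := h
      exact ⟨σ, fun _ => ⟨h1, h2⟩⟩
    · exact ⟨τ, fun h' => absurd h' h⟩
  choose g hg using hex
  have h1 : miss ρ (a + a') (b + b') ⊆ miss ρ a b ∪
      ((miss ρ (a + a') (b + b')).filter (fun τ => ∃ τ' ∈ ρ, τ'.2 = τ.2 + pt a b)) := by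
    intro τ hτ
    rw [Finset.mem_union, Finset.mem_filter]
    by_cases h : ∃ τ' ∈ ρ, τ'.2 = τ.2 + pt a b
    · right; exact ⟨hτ, h⟩
    · left
      unfold miss
      rw [Finset.mem_filter]
      exact ⟨(Finset.mem_filter.mp hτ).1, h⟩
  have h2 : ((miss ρ (a + a') (b + b')).filter (fun τ => ∃ τ' ∈ ρ, τ'.2 = τ.2 + pt a b)).card ≤
      (miss ρ a' b').card := by
    apply Finset.card_le_card_of_injOn g
    · intro τ hτ
      have hτ' := Finset.mem_filter.mp (Finset.mem_coe.mp hτ)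
      have h3 := hg τ hτ'.2
      have h4 := (Finset.mem_filter.mp hτ'.1).2
      unfold miss
      rw [Finset.mem_coe, Finset.mem_filter]
      refine ⟨h3.1, ?_⟩
      rintro ⟨σ, h5, h6⟩
      refine h4 ⟨σ, h5, ?_⟩
      rw [h6, h3.2, add_assoc, pt_add]
    · intro τ hτ τ' hτ' he
      have hτ1 := Finset.mem_filter.mp (Finset.mem_coe.mp hτ)
      have hτ1' := Finset.mem_filter.mp (Finset.mem_coe.mp hτ')
      have h3 := hg τ hτ1.2
      have h3' := hg τ' hτ1'.2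
      rw [he, h3'.2] at h3
      exact eq_of_pos hP hρ (Finset.mem_filter.mp hτ1.1).1 (Finset.mem_filter.mp hτ1'.1).1
        (add_right_cancel h3.2).symm
  calc _ ≤ _ := Finset.card_le_card h1
    _ ≤ _ := Finset.card_union_le _ _
    _ ≤ _ := Nat.add_le_add_left h2 _

theorem miss_unit (hP : Packed P) (hL : Legal G.M P) (hρ : (ρ : Set (Tile G.S)) ⊆ P)
    (a b : ℤ) (hab : (a = 1 ∧ b = 0) ∨ (a = -1 ∧ b = 0) ∨ (a = 0 ∧ b = 1) ∨ (a = 0 ∧ b = -1)) :
    ((miss ρ a b).card : ℝ) ≤ perimeter ρ := by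
  classical
  have key : ((miss ρ a b).card : ENNReal) ≤ perimeterENN ρ := by
    have hsub : miss ρ a b ⊆ ρ := Finset.filter_subset _ _
    have hm : ∀ e ∈ miss ρ a b, ∀ τ' ∈ ρ, τ'.2 ≠ e.2 + pt a b := by
      intro e he τ' hτ' h
      exact (Finset.mem_filter.mp he).2 ⟨τ', hτ', h⟩
    rcases hab with ⟨rfl, rfl⟩ | ⟨rfl, rfl⟩ | ⟨rfl, rfl⟩ | ⟨rfl, rfl⟩
    · apply edge_card_le hP hL ρ hρ 0 1 (by decide) 1 (Or.inr rfl) _ hsub
      rintro e he τ' hτ' ⟨h1, h2⟩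
      apply hm e he τ' hτ'
      apply ext2
      · rw [h1]; simp; norm_num
      · rw [h2]; simp
    · apply edge_card_le hP hL ρ hρ 0 1 (by decide) 0 (Or.inl rfl) _ hsub
      rintro e he τ' hτ' ⟨h1, h2⟩
      apply hm e he τ' hτ'
      apply ext2
      · rw [h1]; simp
      · rw [h2]; simp
    · apply edge_card_le hP hL ρ hρ 1 0 (by decide) 1 (Or.inr rfl) _ hsub
      rintro e he τ' hτ' ⟨h1, h2⟩
      apply hm e he τ' hτ'
      apply ext2
      · rw [h2]; simp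
      · rw [h1]; simp; norm_num
    · apply edge_card_le hP hL ρ hρ 1 0 (by decide) 0 (Or.inl rfl) _ hsub
      rintro e he τ' hτ' ⟨h1, h2⟩
      apply hm e he τ' hτ'
      apply ext2
      · rw [h2]; simp
      · rw [h1]; simp
  have := ENNReal.toReal_mono (perimeterENN_ne_top ρ) key
  simpa [perimeter] using this

theorem perimeter_nonneg (ρ : Finset (Tile G.S)) : 0 ≤ perimeter ρ := ENNReal.toReal_nonneg

theorem miss_le (hP : Packed P) (hL : Legal G.M P) (hρ : (ρ : Set (Tile G.S)) ⊆ P)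
    (a b : ℤ) : ((miss ρ a b).card : ℝ) ≤ (|a| + |b| : ℤ) * perimeter ρ := by
  have hp := perimeter_nonneg ρ
  have hadd : ∀ a b a' b' : ℤ, ((miss ρ (a + a') (b + b')).card : ℝ) ≤
      (miss ρ a b).card + (miss ρ a' b').card := by
    intro a b a' b'
    exact_mod_cast miss_add_card hP hρ a b a' b'
  have hnat1 : ∀ n : ℕ, ((miss ρ (n : ℤ) 0).card : ℝ) ≤ n * perimeter ρ := by
    intro n
    induction n with
    | zero => simp [miss_zero]
    | succ n ih =>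
      have h1 := hadd n 0 1 0
      have h2 := miss_unit hP hL hρ 1 0 (by simp)
      rw [add_zero] at h1
      push_cast
      linarith
  have hnat2 : ∀ n : ℕ, ((miss ρ (-(n : ℤ)) 0).card : ℝ) ≤ n * perimeter ρ := by
    intro n
    induction n with
    | zero => simp [miss_zero]
    | succ n ih =>
      have h1 := hadd (-n) 0 (-1) 0
      have h2 := miss_unit hP hL hρ (-1) 0 (by simp)
      rw [add_zero] at h1
      have e : -(((n + 1 : ℕ)) : ℤ) = -(n : ℤ) + -1 := by push_cast; ring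
      rw [e]
      push_cast
      linarith
  have hnat3 : ∀ n : ℕ, ((miss ρ 0 (n : ℤ)).card : ℝ) ≤ n * perimeter ρ := by
    intro n
    induction n with
    | zero => simp [miss_zero]
    | succ n ih =>
      have h1 := hadd 0 n 0 1
      have h2 := miss_unit hP hL hρ 0 1 (by simp)
      rw [add_zero] at h1
      push_cast
      linarith
  have hnat4 : ∀ n : ℕ, ((miss ρ 0 (-(n : ℤ))).card : ℝ) ≤ n * perimeter ρ := by
    intro n
    induction n with
    | zero => simp [miss_zero]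
    | succ n ih =>
      have h1 := hadd 0 (-n) 0 (-1)
      have h2 := miss_unit hP hL hρ 0 (-1) (by simp)
      rw [add_zero] at h1
      have e : -(((n + 1 : ℕ)) : ℤ) = -(n : ℤ) + -1 := by push_cast; ring
      rw [e]
      push_cast
      linarith
  have hA : ((miss ρ a 0).card : ℝ) ≤ (|a| : ℤ) * perimeter ρ := by
    rcases Int.natAbs_eq a with h | h
    · have := hnat1 a.natAbs
      rw [← h] at this
      rw [Int.abs_eq_natAbs, Int.cast_natCast]
      exact this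
    · have := hnat2 a.natAbs
      rw [← h] at this
      rw [Int.abs_eq_natAbs, Int.cast_natCast]
      exact this
  have hB : ((miss ρ 0 b).card : ℝ) ≤ (|b| : ℤ) * perimeter ρ := by
    rcases Int.natAbs_eq b with h | h
    · have := hnat3 b.natAbs
      rw [← h] at this
      rw [Int.abs_eq_natAbs, Int.cast_natCast]
      exact this
    · have := hnat4 b.natAbs
      rw [← h] at this
      rw [Int.abs_eq_natAbs, Int.cast_natCast]
      exact this
  have h3 := hadd a 0 0 b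
  rw [add_zero, zero_add] at h3
  push_cast at *
  linarith

theorem pairs_le (hP : Packed P) (hρ : (ρ : Set (Tile G.S)) ⊆ P) (α β : G.Λ → Prop) (a b : ℤ) :
    (pairs ρ α β a b).card ≤ (pairs ρ β α (-a) (-b)).card := by
  classical
  have hex : ∀ τ : Tile G.S, ∃ σ : Tile G.S, (∃ τ' ∈ ρ, τ'.2 = τ.2 + pt a b ∧ β τ'.1) →
      (σ ∈ ρ ∧ σ.2 = τ.2 + pt a b ∧ β σ.1) := by
    intro τ
    by_cases h : ∃ τ' ∈ ρ, τ'.2 = τ.2 + pt a b ∧ β τ'.1
    · obtain ⟨σ, h1, h2⟩ := h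
      exact ⟨σ, fun _ => ⟨h1, h2⟩⟩
    · exact ⟨τ, fun h' => absurd h' h⟩
  choose g hg using hex
  apply Finset.card_le_card_of_injOn g
  · intro τ hτ
    have hτ' := Finset.mem_filter.mp (Finset.mem_coe.mp hτ)
    have h3 := hg τ hτ'.2.2
    unfold pairs
    rw [Finset.mem_coe, Finset.mem_filter]
    refine ⟨h3.1, h3.2.2, τ, hτ'.1, ?_, hτ'.2.1⟩
    rw [h3.2.1, add_assoc, pt_add, add_neg_cancel, add_neg_cancel, pt_00, add_zero]
  · intro τ hτ τ' hτ' he
    have hτ1 := Finset.mem_filter.mp (Finset.mem_coe.mp hτ)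
    have hτ1' := Finset.mem_filter.mp (Finset.mem_coe.mp hτ')
    have h3 := hg τ hτ1.2.2
    have h3' := hg τ' hτ1'.2.2
    rw [he, h3'.2.1] at h3
    exact eq_of_pos hP hρ hτ1.1 hτ1'.1 (add_right_cancel h3.2.1).symm

theorem pairs_eq (hP : Packed P) (hρ : (ρ : Set (Tile G.S)) ⊆ P) (α β : G.Λ → Prop) (a b : ℤ) :
    (pairs ρ α β a b).card = (pairs ρ β α (-a) (-b)).card := by
  apply le_antisymm (pairs_le hP hρ α β a b)
  have := pairs_le hP hρ β α (-a) (-b)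
  rwa [neg_neg, neg_neg] at this

open Classical in
/-- double counting -/
theorem count_upper (hL : Legal G.M P) (hρ : (ρ : Set (Tile G.S)) ⊆ P)
    (α β : G.Λ → Prop) (F : Finset (ℤ × ℤ)) (hF : ∀ f ∈ F, |f.1| ≤ G.D ∧ |f.2| ≤ G.D) (m : ℕ)
    (hm : ∀ c ∈ G.X, α (c 0 0) → (F.filter (fun f => β (c f.1 f.2))).card = m) :
    (∑ f ∈ F, (pairs ρ α β f.1 f.2).card) ≤ m * (sel ρ α).card ∧
    m * (sel ρ α).card ≤ (∑ f ∈ F, (pairs ρ α β f.1 f.2).card) +
      ∑ f ∈ F, (miss ρ f.1 f.2).card := by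
  have e1 : ∀ f : ℤ × ℤ, (pairs ρ α β f.1 f.2).card =
      ∑ τ ∈ sel ρ α, if (∃ τ' ∈ ρ, τ'.2 = τ.2 + pt f.1 f.2 ∧ β τ'.1) then 1 else 0 := by
    intro f
    unfold pairs sel
    rw [← Finset.card_filter, Finset.filter_filter]
  have e2 : (∑ f ∈ F, (pairs ρ α β f.1 f.2).card) =
      ∑ τ ∈ sel ρ α, (F.filter (fun f => ∃ τ' ∈ ρ, τ'.2 = τ.2 + pt f.1 f.2 ∧ β τ'.1)).card := by
    simp only [e1]
    rw [Finset.sum_comm]
    apply Finset.sum_congr rfl
    intro τ _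
    rw [Finset.card_filter]
  have e3 : (∑ τ ∈ sel ρ α, (F.filter (fun f => ¬ ∃ τ' ∈ ρ, τ'.2 = τ.2 + pt f.1 f.2)).card) ≤
      ∑ f ∈ F, (miss ρ f.1 f.2).card := by
    simp only [Finset.card_filter]
    rw [Finset.sum_comm]
    apply Finset.sum_le_sum
    intro f _
    rw [← Finset.card_filter]
    apply Finset.card_le_card
    intro τ hτ
    rw [Finset.mem_filter] at hτ
    unfold miss
    rw [Finset.mem_filter]
    exact ⟨(Finset.mem_filter.mp hτ.1).1, hτ.2⟩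
  have loc : ∀ τ ∈ sel ρ α, (F.filter (fun f => ∃ τ' ∈ ρ, τ'.2 = τ.2 + pt f.1 f.2 ∧ β τ'.1)).card ≤ m ∧
      m ≤ (F.filter (fun f => ∃ τ' ∈ ρ, τ'.2 = τ.2 + pt f.1 f.2 ∧ β τ'.1)).card +
        (F.filter (fun f => ¬ ∃ τ' ∈ ρ, τ'.2 = τ.2 + pt f.1 f.2)).card := by
    intro τ hτ
    have hτ' := Finset.mem_filter.mp hτ
    obtain ⟨c, hc, h0, hl, hl'⟩ := local_lemma' hL (hρ hτ'.1)
    have hcm := hm c hc (by rw [h0]; exact hτ'.2)
    constructor
    · rw [← hcm]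
      apply Finset.card_le_card
      intro f hf
      rw [Finset.mem_filter] at hf ⊢
      obtain ⟨hfF, τ', h1, h2, h3⟩ := hf
      refine ⟨hfF, ?_⟩
      rw [← hl' τ' (hρ h1) f.1 f.2 (hF f hfF).1 (hF f hfF).2 h2]
      exact h3
    · rw [← hcm]
      refine le_trans (Finset.card_le_card ?_) (Finset.card_union_le _ _)
      intro f hf
      rw [Finset.mem_filter] at hf
      rw [Finset.mem_union, Finset.mem_filter, Finset.mem_filter]
      by_cases h : ∃ τ' ∈ ρ, τ'.2 = τ.2 + pt f.1 f.2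
      · left
        obtain ⟨τ', h1, h2⟩ := h
        refine ⟨hf.1, τ', h1, h2, ?_⟩
        rw [hl' τ' (hρ h1) f.1 f.2 (hF f hf.1).1 (hF f hf.1).2 h2]
        exact hf.2
      · right; exact ⟨hf.1, h⟩
  constructor
  · rw [e2]
    calc _ ≤ ∑ τ ∈ sel ρ α, m := Finset.sum_le_sum (fun τ hτ => (loc τ hτ).1)
      _ = _ := by rw [Finset.sum_const, smul_eq_mul, mul_comm]
  · calc m * (sel ρ α).card = ∑ τ ∈ sel ρ α, m := by rw [Finset.sum_const, smul_eq_mul, mul_comm]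
      _ ≤ _ := Finset.sum_le_sum (fun τ hτ => (loc τ hτ).2)
      _ = (∑ f ∈ F, (pairs ρ α β f.1 f.2).card) + (∑ τ ∈ sel ρ α, (F.filter (fun f => ¬ ∃ τ' ∈ ρ, τ'.2 = τ.2 + pt f.1 f.2)).card) := by
        rw [Finset.sum_add_distrib, e2]
      _ ≤ _ := Nat.add_le_add_left e3 _

open Classical in
/-- mass transport -/
theorem balance (hP : Packed P) (hL : Legal G.M P) (hρ : (ρ : Set (Tile G.S)) ⊆ P)
    (α β : G.Λ → Prop) (F : Finset (ℤ × ℤ)) (hF : ∀ f ∈ F, |f.1| ≤ G.D ∧ |f.2| ≤ G.D) (m m' : ℕ)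
    (hm : ∀ c ∈ G.X, α (c 0 0) → (F.filter (fun f => β (c f.1 f.2))).card = m)
    (hm' : ∀ c ∈ G.X, β (c 0 0) → (F.filter (fun f => α (c (-f.1) (-f.2)))).card = m') :
    |(m : ℝ) * (sel ρ α).card - (m' : ℝ) * (sel ρ β).card| ≤
      (∑ f ∈ F, (|f.1| + |f.2| : ℤ)) * perimeter ρ := by
  obtain ⟨h1, h2⟩ := count_upper hL hρ α β F hF m hm
  let F' : Finset (ℤ × ℤ) := F.image (fun f => (-f.1, -f.2))
  have hinj : Set.InjOn (fun f : ℤ × ℤ => (-f.1, -f.2)) (F : Set (ℤ × ℤ)) := by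
    intro f _ f' _ h
    simp only [Prod.mk.injEq, neg_inj] at h
    exact Prod.ext h.1 h.2
  obtain ⟨h1', h2'⟩ := count_upper hL hρ β α F' (by
    intro f hf
    obtain ⟨f0, hf0, rfl⟩ := Finset.mem_image.mp hf
    rw [abs_neg, abs_neg]
    exact hF f0 hf0) m' (by
    intro c hc hβ
    rw [← hm' c hc hβ]
    rw [Finset.filter_image, Finset.card_image_of_injOn]
    exact hinj.mono (Finset.coe_subset.mpr (Finset.filter_subset _ _)))
  rw [Finset.sum_image hinj] at h1' h2'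
  rw [Finset.sum_image hinj] at h2'
  have e : (∑ f ∈ F, (pairs ρ β α (-f.1) (-f.2)).card) = ∑ f ∈ F, (pairs ρ α β f.1 f.2).card := by
    apply Finset.sum_congr rfl
    intro f _
    exact (pairs_eq hP hρ α β f.1 f.2).symm
  simp only at h1' h2'
  rw [e] at h1' h2'
  have m1 : (∑ f ∈ F, ((miss ρ f.1 f.2).card : ℝ)) ≤ (∑ f ∈ F, (|f.1| + |f.2| : ℤ)) * perimeter ρ := by
    push_cast
    rw [Finset.sum_mul]
    apply Finset.sum_le_sum
    intro f _
    have := miss_le hP hL hρ f.1 f.2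
    push_cast at this
    exact this
  have m2 : (∑ f ∈ F, ((miss ρ (-f.1) (-f.2)).card : ℝ)) ≤
      (∑ f ∈ F, (|f.1| + |f.2| : ℤ)) * perimeter ρ := by
    push_cast
    rw [Finset.sum_mul]
    apply Finset.sum_le_sum
    intro f _
    have := miss_le hP hL hρ (-f.1) (-f.2)
    rw [abs_neg, abs_neg] at this
    push_cast at this
    exact this
  have h1r : (∑ f ∈ F, ((pairs ρ α β f.1 f.2).card : ℝ)) ≤ m * (sel ρ α).card := by exact_mod_cast h1
  have h2r : (m : ℝ) * (sel ρ α).card ≤ (∑ f ∈ F, ((pairs ρ α β f.1 f.2).card : ℝ)) +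
      ∑ f ∈ F, ((miss ρ f.1 f.2).card : ℝ) := by exact_mod_cast h2
  have h1r' : (∑ f ∈ F, ((pairs ρ α β f.1 f.2).card : ℝ)) ≤ m' * (sel ρ β).card := by
    exact_mod_cast h1'
  have h2r' : (m' : ℝ) * (sel ρ β).card ≤ (∑ f ∈ F, ((pairs ρ α β f.1 f.2).card : ℝ)) +
      ∑ f ∈ F, ((miss ρ (-f.1) (-f.2)).card : ℝ) := by exact_mod_cast h2'
  rw [abs_le]
  constructor <;> linarith

end GridSys

end Pool.Agent.H50R3.AMR
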