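import Mathlib
import Pool.Agent.H50R3.AMR.Count

/-!
Discrepancy of tile types and small patterns from constant-composition block data.
-/

set_option autoImplicit false

namespace Pool.Agent.H50R3.AMR

open MeasureTheory Metric

namespace GridSys

open Classical in
/-- constant-composition block data for a grid system -/
structure BlockData (G : GridSys) where
  mkr : G.Λ
  blank : G.Λ
  K : ℤ
  hK : 0 < K
  hKD : K ≤ G.D
  F1 : Finset (ℤ × ℤ)
  F2 : Finset (ℤ × ℤ)
  hF1 : ∀ f ∈ F1, |f.1| ≤ G.D ∧ |f.2| ≤ G.D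
  hF2 : ∀ f ∈ F2, |f.1| ≤ G.D ∧ |f.2| ≤ G.D
  hF2pos : 0 < F2.card
  hA : ∀ c ∈ G.X, c 0 0 ≠ blank → (F1.filter (fun f => c f.1 f.2 = mkr)).card = 1
  hB : ∀ c ∈ G.X, c 0 0 = mkr → ∀ t, t ≠ blank →
    (F1.filter (fun f => c (-f.1) (-f.2) = t)).card = 1
  hC : ∀ c ∈ G.X, (F2.filter (fun f => c f.1 f.2 = mkr)).card = 1
  hE : ∀ c ∈ G.X, ∀ x y x' y' : ℤ, c x y ≠ blank → c x' y' ≠ blank → |x - x'| < K →
    |y - y'| < K → x = x' ∧ y = y'

variable {G : GridSys} {P : Set (Tile G.S)} {ρ : Finset (Tile G.S)}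

theorem abs_cast_lt {a b : ℤ} (h : |(a : ℝ)| < (b : ℝ)) : |a| < b := by
  rw [← Int.cast_abs] at h
  exact_mod_cast h

theorem mem_sel (ρ : Finset (Tile G.S)) (α : G.Λ → Prop) (τ : Tile G.S) :
    τ ∈ sel ρ α ↔ τ ∈ ρ ∧ α τ.1 := by
  simp only [sel, Finset.mem_filter]

theorem mem_miss (ρ : Finset (Tile G.S)) (a b : ℤ) (τ : Tile G.S) :
    τ ∈ miss ρ a b ↔ τ ∈ ρ ∧ ¬ ∃ τ' ∈ ρ, τ'.2 = τ.2 + pt a b := by
  simp only [miss, Finset.mem_filter]

theorem mem_pairs (ρ : Finset (Tile G.S)) (α β : G.Λ → Prop) (a b : ℤ) (τ : Tile G.S) :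
    τ ∈ pairs ρ α β a b ↔ τ ∈ ρ ∧ α τ.1 ∧ ∃ τ' ∈ ρ, τ'.2 = τ.2 + pt a b ∧ β τ'.1 := by
  simp only [pairs, Finset.mem_filter]

theorem tileCount_eq (ρ : Finset (Tile G.S)) (t : G.Λ) :
    tileCount (S := G.S) t ρ = (sel ρ (fun l => l = t)).card := by
  unfold tileCount
  rw [← Set.ncard_coe_finset]
  congr 1
  ext τ
  rw [Finset.mem_coe, mem_sel]
  rfl

open Classical in
/-- tiles of `ρ` at which the pattern `A` (with base tile `a0`) occurs -/
noncomputable def occ (ρ A : Finset (Tile G.S)) (a0 : Tile G.S) : Finset (Tile G.S) :=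
  ρ.filter (fun τ => ∀ a ∈ A, ((a.1, τ.2 + (a.2 - a0.2)) : Tile G.S) ∈ ρ)

theorem mem_occ (ρ A : Finset (Tile G.S)) (a0 τ : Tile G.S) :
    τ ∈ occ ρ A a0 ↔ τ ∈ ρ ∧ ∀ a ∈ A, ((a.1, τ.2 + (a.2 - a0.2)) : Tile G.S) ∈ ρ := by
  simp only [occ, Finset.mem_filter]

theorem patternCount_eq (hP : Packed P) (hρ : (ρ : Set (Tile G.S)) ⊆ P)
    (A : Finset (Tile G.S)) (a0 : Tile G.S) (ha0 : a0 ∈ A) :
    patternCount A ρ = (occ ρ A a0).card := by
  unfold patternCount
  let g : E 2 → Tile G.S := fun v => (a0.1, v + a0.2)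
  have hg : Function.Injective g := by
    intro v v' h
    have := congrArg Prod.snd h
    exact add_right_cancel this
  rw [← Set.ncard_image_of_injective _ hg, ← Set.ncard_coe_finset]
  congr 1
  ext τ
  constructor
  · rintro ⟨v, hv, rfl⟩
    have hv' : translate v (A : Set (Tile G.S)) ⊆ ρ := hv
    rw [Finset.mem_coe, mem_occ]
    refine ⟨hv' ⟨a0, ha0, rfl⟩, ?_⟩
    intro a ha
    have h1 : ((a.1, v + a.2) : Tile G.S) ∈ (ρ : Set (Tile G.S)) := hv' ⟨a, ha, rfl⟩
    have e : (g v).2 + (a.2 - a0.2) = v + a.2 := by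
      show v + a0.2 + (a.2 - a0.2) = v + a.2
      abel
    rw [e]
    exact h1
  · intro hτ
    rw [Finset.mem_coe, mem_occ] at hτ
    obtain ⟨h1, h2⟩ := hτ
    refine ⟨τ.2 - a0.2, ?_, ?_⟩
    · rintro σ ⟨a, ha, rfl⟩
      have := h2 a ha
      have e : τ.2 - a0.2 + a.2 = τ.2 + (a.2 - a0.2) := by abel
      show ((a.1, τ.2 - a0.2 + a.2) : Tile G.S) ∈ (ρ : Set (Tile G.S))
      rw [e]
      exact this
    · have h3 := h2 a0 ha0
      rw [sub_self, add_zero] at h3
      show ((a0.1, τ.2 - a0.2 + a0.2) : Tile G.S) = τ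
      rw [sub_add_cancel]
      exact eq_of_pos hP hρ h3 h1 rfl

theorem pairs_true (β : G.Λ → Prop) (a b : ℤ) (ρ : Finset (Tile G.S)) :
    (pairs ρ β (fun _ => True) a b).card ≤ (sel ρ β).card ∧
    (sel ρ β).card ≤ (pairs ρ β (fun _ => True) a b).card + (miss ρ a b).card := by
  classical
  constructor
  · apply Finset.card_le_card
    intro τ hτ
    rw [mem_pairs] at hτ
    rw [mem_sel]
    exact ⟨hτ.1, hτ.2.1⟩
  · refine le_trans (Finset.card_le_card ?_) (Finset.card_union_le _ _)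
    intro τ hτ
    rw [mem_sel] at hτ
    rw [Finset.mem_union, mem_pairs, mem_miss]
    by_cases h : ∃ τ' ∈ ρ, τ'.2 = τ.2 + pt a b
    · left
      obtain ⟨τ', h1, h2⟩ := h
      exact ⟨hτ.1, hτ.2, τ', h1, h2, trivial⟩
    · right
      exact ⟨hτ.1, h⟩

variable (Bd : BlockData G)

/-- constants -/
noncomputable def BlockData.C1 : ℝ := ((∑ f ∈ Bd.F1, (|f.1| + |f.2| : ℤ) : ℤ) : ℝ)
noncomputable def BlockData.C2 : ℝ := ((∑ f ∈ Bd.F2, (|f.1| + |f.2| : ℤ) : ℤ) : ℝ)

theorem C1_nonneg : 0 ≤ Bd.C1 := by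
  unfold BlockData.C1
  have : 0 ≤ ∑ f ∈ Bd.F1, (|f.1| + |f.2| : ℤ) := Finset.sum_nonneg (fun f _ => by positivity)
  exact_mod_cast this

theorem C2_nonneg : 0 ≤ Bd.C2 := by
  unfold BlockData.C2
  have : 0 ≤ ∑ f ∈ Bd.F2, (|f.1| + |f.2| : ℤ) := Finset.sum_nonneg (fun f _ => by positivity)
  exact_mod_cast this

theorem F2_one_le : (1 : ℝ) ≤ (Bd.F2.card : ℝ) := by
  have := Bd.hF2pos
  exact_mod_cast this

theorem label_vs_marker (hP : Packed P) (hL : Legal G.M P)
    (hρ : (ρ : Set (Tile G.S)) ⊆ P) (t : G.Λ) (ht : t ≠ Bd.blank) :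
    |((sel ρ (fun l => l = t)).card : ℝ) -
      (sel ρ (fun l => l = Bd.mkr)).card| ≤ Bd.C1 * perimeter ρ := by
  have := balance hP hL hρ (fun l => l = t) (fun l => l = Bd.mkr) Bd.F1 Bd.hF1 1 1
    (by
      intro c hc h0
      exact Bd.hA c hc (by rw [h0]; exact ht))
    (by
      intro c hc h0
      exact Bd.hB c hc h0 t ht)
  simp only [Nat.cast_one, one_mul] at this
  exact this

theorem all_vs_marker (hP : Packed P) (hL : Legal G.M P)
    (hρ : (ρ : Set (Tile G.S)) ⊆ P) :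
    |(ρ.card : ℝ) - (Bd.F2.card : ℝ) * (sel ρ (fun l => l = Bd.mkr)).card| ≤
      Bd.C2 * perimeter ρ := by
  have := balance hP hL hρ (fun _ => True) (fun l => l = Bd.mkr) Bd.F2 Bd.hF2 1 Bd.F2.card
    (by
      intro c hc _
      exact Bd.hC c hc)
    (by
      intro c hc _
      simp)
  have e : sel ρ (fun _ => True) = ρ := by
    ext τ; rw [mem_sel]; simp
  rw [e] at this
  simp only [Nat.cast_one, one_mul] at this
  exact this

theorem label_disc (hP : Packed P) (hL : Legal G.M P)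
    (hρ : (ρ : Set (Tile G.S)) ⊆ P) (t : G.Λ) (ht : t ≠ Bd.blank) :
    |((sel ρ (fun l => l = t)).card : ℝ) -
      (1 / Bd.F2.card : ℝ) * ρ.card| ≤ (Bd.C1 + Bd.C2) * perimeter ρ := by
  have h1 := label_vs_marker Bd hP hL hρ t ht
  have h2 := all_vs_marker Bd hP hL hρ
  have hB := F2_one_le Bd
  have hp := perimeter_nonneg ρ
  have hC2 := C2_nonneg Bd
  set B : ℝ := (Bd.F2.card : ℝ)
  set n : ℝ := ((sel ρ (fun l => l = Bd.mkr)).card : ℝ)
  have h3 : |n - (1 / B) * ρ.card| ≤ Bd.C2 * perimeter ρ := by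
    have e : n - (1 / B) * ρ.card = -(1 / B) * (ρ.card - B * n) := by
      field_simp
      ring
    rw [e, abs_mul, abs_neg, abs_of_nonneg (by positivity : 0 ≤ 1 / B)]
    have h4 : 1 / B ≤ 1 := by rw [div_le_one (by linarith)]; exact hB
    calc 1 / B * |(ρ.card : ℝ) - B * n| ≤ 1 * |(ρ.card : ℝ) - B * n| :=
          mul_le_mul_of_nonneg_right h4 (abs_nonneg _)
      _ ≤ _ := by rw [one_mul]; exact h2
  rw [abs_le] at *
  constructor <;> linarith [h1.1, h1.2, h3.1, h3.2]

open Classical in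
/-- the nonblank labels -/
noncomputable def BlockData.NB : Finset G.Λ := by
  haveI := G.fin
  haveI := Fintype.ofFinite G.Λ
  exact Finset.univ.filter (fun t => t ≠ Bd.blank)

theorem mem_NB (t : G.Λ) : t ∈ Bd.NB ↔ t ≠ Bd.blank := by
  simp [BlockData.NB]

theorem nonblank_sum (ρ : Finset (Tile G.S)) :
    (sel ρ (fun l => l ≠ Bd.blank)).card = ∑ t ∈ Bd.NB, (sel ρ (fun l => l = t)).card := by
  classical
  let f : Tile G.S → G.Λ := fun τ => τ.1
  rw [Finset.card_eq_sum_card_fiberwise (f := f) (t := Bd.NB) (by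
    intro τ hτ
    rw [Finset.mem_coe, mem_sel] at hτ
    rw [Finset.mem_coe, mem_NB]
    exact hτ.2)]
  apply Finset.sum_congr rfl
  intro t ht
  congr 1
  ext τ
  rw [Finset.mem_filter, mem_sel, mem_sel]
  rw [mem_NB] at ht
  constructor
  · rintro ⟨⟨h1, h2⟩, h3⟩
    exact ⟨h1, h3⟩
  · rintro ⟨h1, h2⟩
    exact ⟨⟨h1, by rw [h2]; exact ht⟩, h2⟩

theorem blank_add (ρ : Finset (Tile G.S)) :
    (sel ρ (fun l => l = Bd.blank)).card + (sel ρ (fun l => l ≠ Bd.blank)).card = ρ.card := by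
  classical
  rw [← Finset.card_union_of_disjoint]
  · congr 1
    ext τ
    rw [Finset.mem_union, mem_sel, mem_sel]
    constructor
    · rintro (h | h) <;> exact h.1
    · intro h
      by_cases h2 : τ.1 = Bd.blank
      · left; exact ⟨h, h2⟩
      · right; exact ⟨h, h2⟩
  · rw [Finset.disjoint_left]
    intro τ h1 h2
    rw [mem_sel] at h1 h2
    exact h2.2 h1.2

theorem nonblank_disc (hP : Packed P) (hL : Legal G.M P) (hρ : (ρ : Set (Tile G.S)) ⊆ P) :
    |((sel ρ (fun l => l ≠ Bd.blank)).card : ℝ) -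
      (Bd.NB.card / Bd.F2.card : ℝ) * ρ.card| ≤ Bd.NB.card * (Bd.C1 + Bd.C2) * perimeter ρ := by
  rw [nonblank_sum]
  have e : ((∑ t ∈ Bd.NB, (sel ρ (fun l => l = t)).card : ℕ) : ℝ) -
      (Bd.NB.card / Bd.F2.card : ℝ) * ρ.card =
      ∑ t ∈ Bd.NB, (((sel ρ (fun l => l = t)).card : ℝ) - (1 / Bd.F2.card : ℝ) * ρ.card) := by
    rw [Finset.sum_sub_distrib, Finset.sum_const]
    push_cast
    rw [nsmul_eq_mul]
    ring
  rw [e]
  calc _ ≤ ∑ t ∈ Bd.NB, |((sel ρ (fun l => l = t)).card : ℝ) -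
        (1 / Bd.F2.card : ℝ) * ρ.card| := Finset.abs_sum_le_sum_abs _ _
    _ ≤ ∑ t ∈ Bd.NB, (Bd.C1 + Bd.C2) * perimeter ρ :=
      Finset.sum_le_sum (fun t ht => label_disc Bd hP hL hρ t ((mem_NB Bd t).mp ht))
    _ = _ := by
      rw [Finset.sum_const, nsmul_eq_mul]
      ring

theorem tile_disc (Bd : BlockData G) (t : G.Λ) :
    ∃ δ c : ℝ, ∀ (P : Set (Tile G.S)) (ρ : Finset (Tile G.S)), Packed P →
      Legal G.M P → (ρ : Set (Tile G.S)) ⊆ P →
      |(tileCount (S := G.S) t ρ : ℝ) - δ * ρ.card| ≤ c * perimeter ρ := by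
  by_cases h : t = Bd.blank
  · subst h
    refine ⟨1 - Bd.NB.card / Bd.F2.card, Bd.NB.card * (Bd.C1 + Bd.C2), ?_⟩
    intro P ρ hP hL hρ
    have h1 := nonblank_disc Bd hP hL hρ
    have h2 := blank_add Bd ρ
    have h3 : ((sel ρ (fun l => l = Bd.blank)).card : ℝ) +
      (sel ρ (fun l => l ≠ Bd.blank)).card = ρ.card := by exact_mod_cast h2
    rw [tileCount_eq]
    have e2 : ((sel ρ (fun l => l = Bd.blank)).card : ℝ) - (1 - Bd.NB.card / Bd.F2.card) * ρ.card
      = -(((sel ρ (fun l => l ≠ Bd.blank)).card : ℝ) - (Bd.NB.card / Bd.F2.card : ℝ) * ρ.card) := by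
      rw [← h3]; ring
    rw [e2, abs_neg]
    exact h1
  · refine ⟨1 / Bd.F2.card, Bd.C1 + Bd.C2, ?_⟩
    intro P ρ hP hL hρ
    rw [tileCount_eq]
    exact label_disc Bd hP hL hρ t h

/-- patterns all of whose offsets are integral, all tiles blank -/
theorem occ_blank (Bd : BlockData G) (A : Finset (Tile G.S))
    (hA : ∀ a ∈ A, ∀ a' ∈ A, ∀ i, |a.2 i - a'.2 i| < Bd.K) (a0 : Tile G.S) (ha0 : a0 ∈ A)
    (u w : Tile G.S → ℤ) (huw : ∀ a ∈ A, a.2 - a0.2 = pt (u a) (w a))
    (hbl : ∀ a ∈ A, a.1 = Bd.blank) (hP : Packed P) (hL : Legal G.M P)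
    (hρ : (ρ : Set (Tile G.S)) ⊆ P) :
    |((occ ρ A a0).card : ℝ) - (1 - A.card * (Bd.NB.card / Bd.F2.card)) * ρ.card| ≤
      (2 * (∑ a ∈ A, (|u a| + |w a| : ℤ) : ℤ) + A.card * (Bd.NB.card * (Bd.C1 + Bd.C2))) *
        perimeter ρ := by
  classical
  have hD : (Bd.K : ℤ) ≤ G.D := Bd.hKD
  -- offsets bounds
  have huK : ∀ a ∈ A, |u a| < Bd.K ∧ |w a| < Bd.K := by
    intro a ha
    have h0 := hA a ha a0 ha0 0
    have h1 := hA a ha a0 ha0 1
    have e := huw a ha
    have e0 : a.2 0 - a0.2 0 = u a := by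
      have := congrArg (fun z : E 2 => z 0) e
      simpa using this
    have e1 : a.2 1 - a0.2 1 = w a := by
      have := congrArg (fun z : E 2 => z 1) e
      simpa using this
    rw [e0] at h0
    rw [e1] at h1
    exact ⟨abs_cast_lt h0, abs_cast_lt h1⟩
  have hdiff : ∀ a ∈ A, ∀ a' ∈ A, |u a - u a'| < Bd.K ∧ |w a - w a'| < Bd.K := by
    intro a ha a' ha'
    have h0 := hA a ha a' ha' 0
    have h1 := hA a ha a' ha' 1
    have e := huw a ha
    have e' := huw a' ha'
    have e0 : a.2 0 - a'.2 0 = ((u a - u a' : ℤ) : ℝ) := by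
      have h2 := congrArg (fun z : E 2 => z 0) e
      have h3 := congrArg (fun z : E 2 => z 0) e'
      simp only [PiLp.sub_apply, pt_zero] at h2 h3
      push_cast
      linarith
    have e1 : a.2 1 - a'.2 1 = ((w a - w a' : ℤ) : ℝ) := by
      have h2 := congrArg (fun z : E 2 => z 1) e
      have h3 := congrArg (fun z : E 2 => z 1) e'
      simp only [PiLp.sub_apply, pt_one] at h2 h3
      push_cast
      linarith
    rw [e0] at h0
    rw [e1] at h1
    exact ⟨abs_cast_lt h0, abs_cast_lt h1⟩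
  let pa : Tile G.S → Finset (Tile G.S) := fun a =>
    pairs ρ (fun _ => True) (fun l => l ≠ Bd.blank) (u a) (w a)
  -- upper covering
  have hcov : ρ.card ≤ (occ ρ A a0).card + (∑ a ∈ A, (pa a).card) +
      ∑ a ∈ A, (miss ρ (u a) (w a)).card := by
    have hsub : ρ ⊆ ((occ ρ A a0) ∪ (A.biUnion pa)) ∪ (A.biUnion (fun a => miss ρ (u a) (w a))) := by
      intro τ hτ
      rw [Finset.mem_union, Finset.mem_union, Finset.mem_biUnion, Finset.mem_biUnion]
      by_cases hocc : τ ∈ occ ρ A a0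
      · left; left; exact hocc
      · rw [mem_occ] at hocc
        push Not at hocc
        obtain ⟨a, ha, hna⟩ := hocc hτ
        by_cases hp : ∃ τ' ∈ ρ, τ'.2 = τ.2 + pt (u a) (w a)
        · left; right
          obtain ⟨τ', h1, h2⟩ := hp
          refine ⟨a, ha, ?_⟩
          show τ ∈ pairs ρ (fun _ => True) (fun l => l ≠ Bd.blank) (u a) (w a)
          rw [mem_pairs]
          refine ⟨hτ, trivial, τ', h1, h2, ?_⟩
          intro hb
          apply hna
          have : ((a.1, τ.2 + (a.2 - a0.2)) : Tile G.S) = τ' := by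
            apply Prod.ext
            · show a.1 = τ'.1
              rw [hbl a ha, hb]
            · show τ.2 + (a.2 - a0.2) = τ'.2
              rw [huw a ha, h2]
          rw [this]; exact h1
        · right
          refine ⟨a, ha, ?_⟩
          rw [mem_miss]
          exact ⟨hτ, hp⟩
    calc ρ.card ≤ _ := Finset.card_le_card hsub
      _ ≤ _ := Finset.card_union_le _ _
      _ ≤ ((occ ρ A a0).card + (A.biUnion pa).card) +
          (A.biUnion (fun a => miss ρ (u a) (w a))).card :=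
        Nat.add_le_add_right (Finset.card_union_le _ _) _
      _ ≤ _ := by
        apply Nat.add_le_add
        · exact Nat.add_le_add_left Finset.card_biUnion_le _
        · exact Finset.card_biUnion_le
  -- disjointness
  have hdisj : (occ ρ A a0).card + (∑ a ∈ A, (pa a).card) ≤ ρ.card := by
    have hpd : ∀ a ∈ A, ∀ a' ∈ A, a ≠ a' → Disjoint (pa a) (pa a') := by
      intro a ha a' ha' hne
      rw [Finset.disjoint_left]
      intro τ h1 h2
      change τ ∈ pairs ρ (fun _ => True) (fun l => l ≠ Bd.blank) (u a) (w a) at h1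
      change τ ∈ pairs ρ (fun _ => True) (fun l => l ≠ Bd.blank) (u a') (w a') at h2
      rw [mem_pairs] at h1 h2
      obtain ⟨hτ, _, τ1, h3, h4, h5⟩ := h1
      obtain ⟨_, _, τ2, h6, h7, h8⟩ := h2
      obtain ⟨c, hc, h00, hl, hl'⟩ := local_lemma' hL (hρ hτ)
      have b1 := huK a ha
      have b2 := huK a' ha'
      have c1 := hl' τ1 (hρ h3) (u a) (w a) (by linarith [b1.1]) (by linarith [b1.2]) h4
      have c2 := hl' τ2 (hρ h6) (u a') (w a') (by linarith [b2.1]) (by linarith [b2.2]) h7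
      have b3 := hdiff a ha a' ha'
      have h9 := Bd.hE c hc (u a) (w a) (u a') (w a') (by rw [← c1]; exact h5)
        (by rw [← c2]; exact h8) b3.1 b3.2
      apply hne
      apply Prod.ext
      · rw [hbl a ha, hbl a' ha']
      · have e1 := huw a ha
        have e2 := huw a' ha'
        rw [h9.1, h9.2, ← e2] at e1
        exact sub_left_injective e1
    have h1 : (A.biUnion pa).card = ∑ a ∈ A, (pa a).card := Finset.card_biUnion hpd
    rw [← h1, ← Finset.card_union_of_disjoint]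
    · apply Finset.card_le_card
      intro τ hτ
      rw [Finset.mem_union, Finset.mem_biUnion] at hτ
      rcases hτ with h | ⟨a, ha, h⟩
      · exact ((mem_occ _ _ _ _).mp h).1
      · change τ ∈ pairs ρ (fun _ => True) (fun l => l ≠ Bd.blank) (u a) (w a) at h
        exact ((mem_pairs _ _ _ _ _ _).mp h).1
    · rw [Finset.disjoint_left]
      intro τ h2 h3
      rw [Finset.mem_biUnion] at h3
      obtain ⟨a, ha, h3⟩ := h3
      change τ ∈ pairs ρ (fun _ => True) (fun l => l ≠ Bd.blank) (u a) (w a) at h3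
      rw [mem_pairs] at h3
      rw [mem_occ] at h2
      obtain ⟨_, _, τ', h4, h5, h6⟩ := h3
      have h7 := h2.2 a ha
      have h8 := eq_of_pos hP hρ h7 h4 (by
        show τ.2 + (a.2 - a0.2) = τ'.2
        rw [huw a ha, h5])
      apply h6
      rw [← h8]
      exact hbl a ha
  -- comparison of pairs with the number of nonblank tiles
  have hpa : ∀ a ∈ A, (pa a).card ≤ (sel ρ (fun l => l ≠ Bd.blank)).card ∧
      (sel ρ (fun l => l ≠ Bd.blank)).card ≤ (pa a).card + (miss ρ (-u a) (-w a)).card := by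
    intro a ha
    have h1 : (pa a).card = (pairs ρ (fun l => l ≠ Bd.blank) (fun _ => True) (-u a) (-w a)).card :=
      pairs_eq hP hρ _ _ _ _
    rw [h1]
    exact pairs_true _ _ _ _
  have hNB := nonblank_disc Bd hP hL hρ
  have hp := perimeter_nonneg ρ
  have hm1 : (∑ a ∈ A, ((miss ρ (u a) (w a)).card : ℝ)) ≤
      ((∑ a ∈ A, (|u a| + |w a| : ℤ) : ℤ) : ℝ) * perimeter ρ := by
    push_cast
    rw [Finset.sum_mul]
    apply Finset.sum_le_sum
    intro a _
    have := miss_le hP hL hρ (u a) (w a)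
    push_cast at this
    exact this
  have hm2 : (∑ a ∈ A, ((miss ρ (-u a) (-w a)).card : ℝ)) ≤
      ((∑ a ∈ A, (|u a| + |w a| : ℤ) : ℤ) : ℝ) * perimeter ρ := by
    push_cast
    rw [Finset.sum_mul]
    apply Finset.sum_le_sum
    intro a _
    have := miss_le hP hL hρ (-u a) (-w a)
    rw [abs_neg, abs_neg] at this
    push_cast at this
    exact this
  have hcovr : (ρ.card : ℝ) ≤ (occ ρ A a0).card + (∑ a ∈ A, ((pa a).card : ℝ)) +
      ∑ a ∈ A, ((miss ρ (u a) (w a)).card : ℝ) := by exact_mod_cast hcov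
  have hdisjr : ((occ ρ A a0).card : ℝ) + (∑ a ∈ A, ((pa a).card : ℝ)) ≤ ρ.card := by
    exact_mod_cast hdisj
  set n : ℝ := ((sel ρ (fun l => l ≠ Bd.blank)).card : ℝ) with hn
  have hs1 : (∑ a ∈ A, ((pa a).card : ℝ)) ≤ A.card * n := by
    calc (∑ a ∈ A, ((pa a).card : ℝ)) ≤ ∑ a ∈ A, n :=
          Finset.sum_le_sum (fun a ha => by rw [hn]; exact_mod_cast (hpa a ha).1)
      _ = _ := by rw [Finset.sum_const, nsmul_eq_mul]
  have hs2 : A.card * n ≤ (∑ a ∈ A, ((pa a).card : ℝ)) +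
      (∑ a ∈ A, ((miss ρ (-u a) (-w a)).card : ℝ)) := by
    calc A.card * n = ∑ a ∈ A, n := by rw [Finset.sum_const, nsmul_eq_mul]
      _ ≤ ∑ a ∈ A, (((pa a).card : ℝ) + ((miss ρ (-u a) (-w a)).card : ℝ)) :=
          Finset.sum_le_sum (fun a ha => by rw [hn]; exact_mod_cast (hpa a ha).2)
      _ = _ := Finset.sum_add_distrib
  have hA0 : (0 : ℝ) ≤ A.card := by positivity
  have hs3 : |(A.card : ℝ) * n - A.card * (Bd.NB.card / Bd.F2.card * ρ.card)| ≤
      A.card * (Bd.NB.card * (Bd.C1 + Bd.C2)) * perimeter ρ := by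
    rw [← mul_sub, abs_mul, abs_of_nonneg hA0]
    calc _ ≤ (A.card : ℝ) * (Bd.NB.card * (Bd.C1 + Bd.C2) * perimeter ρ) :=
          mul_le_mul_of_nonneg_left hNB hA0
      _ = _ := by ring
  rw [abs_le] at hs3 ⊢
  have e1 : (1 - A.card * (Bd.NB.card / Bd.F2.card : ℝ)) * ρ.card =
      ρ.card - A.card * (Bd.NB.card / Bd.F2.card * ρ.card) := by ring
  have e2 : (2 * ((∑ a ∈ A, (|u a| + |w a| : ℤ) : ℤ) : ℝ) +
      A.card * (Bd.NB.card * (Bd.C1 + Bd.C2))) * perimeter ρ =
      2 * (((∑ a ∈ A, (|u a| + |w a| : ℤ) : ℤ) : ℝ) * perimeter ρ) +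
      A.card * (Bd.NB.card * (Bd.C1 + Bd.C2)) * perimeter ρ := by ring
  rw [e1, e2]
  constructor <;> linarith [hs3.1, hs3.2]

/-- a pattern with exactly one nonblank tile -/
theorem occ_one (Bd : BlockData G) (A : Finset (Tile G.S))
    (hA : ∀ a ∈ A, ∀ a' ∈ A, ∀ i, |a.2 i - a'.2 i| < Bd.K) (a0 : Tile G.S) (ha0 : a0 ∈ A)
    (u w : Tile G.S → ℤ) (huw : ∀ a ∈ A, a.2 - a0.2 = pt (u a) (w a))
    (h0 : a0.1 ≠ Bd.blank) (hbl : ∀ a ∈ A, a ≠ a0 → a.1 = Bd.blank ∧ a.2 ≠ a0.2)
    (hP : Packed P) (hL : Legal G.M P) (hρ : (ρ : Set (Tile G.S)) ⊆ P) :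
    |((occ ρ A a0).card : ℝ) - (1 / Bd.F2.card) * ρ.card| ≤
      ((∑ a ∈ A, (|u a| + |w a| : ℤ) : ℤ) + (Bd.C1 + Bd.C2)) * perimeter ρ := by
  classical
  have hD : (Bd.K : ℤ) ≤ G.D := Bd.hKD
  have huK : ∀ a ∈ A, |u a| < Bd.K ∧ |w a| < Bd.K := by
    intro a ha
    have h0 := hA a ha a0 ha0 0
    have h1 := hA a ha a0 ha0 1
    have e := huw a ha
    have e0 : a.2 0 - a0.2 0 = u a := by
      have := congrArg (fun z : E 2 => z 0) e
      simpa using this
    have e1 : a.2 1 - a0.2 1 = w a := by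
      have := congrArg (fun z : E 2 => z 1) e
      simpa using this
    rw [e0] at h0
    rw [e1] at h1
    exact ⟨abs_cast_lt h0, abs_cast_lt h1⟩
  have hle : (occ ρ A a0).card ≤ (sel ρ (fun l => l = a0.1)).card := by
    apply Finset.card_le_card
    intro τ hτ
    rw [mem_occ] at hτ
    rw [mem_sel]
    refine ⟨hτ.1, ?_⟩
    have h3 := hτ.2 a0 ha0
    rw [sub_self, add_zero] at h3
    have h4 := eq_of_pos hP hρ h3 hτ.1 rfl
    rw [← h4]
  have hge : (sel ρ (fun l => l = a0.1)).card ≤ (occ ρ A a0).card +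
      ∑ a ∈ A, (miss ρ (u a) (w a)).card := by
    have hsub : sel ρ (fun l => l = a0.1) ⊆ (occ ρ A a0) ∪
        (A.biUnion (fun a => miss ρ (u a) (w a))) := by
      intro τ hτ
      rw [mem_sel] at hτ
      rw [Finset.mem_union, Finset.mem_biUnion]
      by_cases hall : ∀ a ∈ A, ∃ τ' ∈ ρ, τ'.2 = τ.2 + pt (u a) (w a)
      · left
        rw [mem_occ]
        refine ⟨hτ.1, ?_⟩
        intro a ha
        obtain ⟨τ', h1, h2⟩ := hall a ha
        have hty : τ'.1 = a.1 := by
          obtain ⟨c, hc, h00, hl, hl'⟩ := local_lemma' hL (hρ hτ.1)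
          have b1 := huK a ha
          have c1 := hl' τ' (hρ h1) (u a) (w a) (by linarith [b1.1]) (by linarith [b1.2]) h2
          by_cases haa : a = a0
          · subst haa
            have e := huw a ha
            rw [sub_self] at e
            have h5 : pt 0 0 = pt (u a) (w a) := by rw [pt_00]; exact e
            obtain ⟨h6, h7⟩ := pt_inj h5
            rw [← h6, ← h7] at c1
            rw [c1, h00, hτ.2]
          · obtain ⟨h3, h4⟩ := hbl a ha haa
            rw [h3]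
            by_contra hcon
            have h5 := Bd.hE c hc (u a) (w a) 0 0 (by rw [← c1]; exact hcon)
              (by rw [h00, hτ.2]; exact h0) (by rw [sub_zero]; exact b1.1)
              (by rw [sub_zero]; exact b1.2)
            apply h4
            have e := huw a ha
            rw [h5.1, h5.2, pt_00] at e
            exact sub_eq_zero.mp e
        have : ((a.1, τ.2 + (a.2 - a0.2)) : Tile G.S) = τ' := by
          apply Prod.ext
          · exact hty.symm
          · show τ.2 + (a.2 - a0.2) = τ'.2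
            rw [huw a ha, h2]
        rw [this]; exact h1
      · right
        push Not at hall
        obtain ⟨a, ha, h⟩ := hall
        refine ⟨a, ha, ?_⟩
        rw [mem_miss]
        refine ⟨hτ.1, ?_⟩
        rintro ⟨τ', h1, h2⟩
        exact h τ' h1 h2
    calc _ ≤ _ := Finset.card_le_card hsub
      _ ≤ _ := Finset.card_union_le _ _
      _ ≤ _ := Nat.add_le_add_left Finset.card_biUnion_le _
  have hm1 : (∑ a ∈ A, ((miss ρ (u a) (w a)).card : ℝ)) ≤
      ((∑ a ∈ A, (|u a| + |w a| : ℤ) : ℤ) : ℝ) * perimeter ρ := by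
    push_cast
    rw [Finset.sum_mul]
    apply Finset.sum_le_sum
    intro a _
    have := miss_le hP hL hρ (u a) (w a)
    push_cast at this
    exact this
  have hlab := label_disc Bd hP hL hρ a0.1 h0
  have hler : ((occ ρ A a0).card : ℝ) ≤ (sel ρ (fun l => l = a0.1)).card := by exact_mod_cast hle
  have hger : ((sel ρ (fun l => l = a0.1)).card : ℝ) ≤ (occ ρ A a0).card +
      ∑ a ∈ A, ((miss ρ (u a) (w a)).card : ℝ) := by exact_mod_cast hge
  have hp := perimeter_nonneg ρ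
  rw [abs_le] at hlab ⊢
  have e2 : (((∑ a ∈ A, (|u a| + |w a| : ℤ) : ℤ) : ℝ) + (Bd.C1 + Bd.C2)) * perimeter ρ =
      ((∑ a ∈ A, (|u a| + |w a| : ℤ) : ℤ) : ℝ) * perimeter ρ + (Bd.C1 + Bd.C2) * perimeter ρ := by
    ring
  rw [e2]
  have hm0 : (0 : ℝ) ≤ (∑ a ∈ A, ((miss ρ (u a) (w a)).card : ℝ)) :=
    Finset.sum_nonneg (fun a _ => by positivity)
  constructor <;> linarith [hlab.1, hlab.2]

theorem pattern_disc (Bd : BlockData G) (A : Finset (Tile G.S)) (hne : A.Nonempty)
    (hA : ∀ a ∈ A, ∀ a' ∈ A, ∀ i, |a.2 i - a'.2 i| < Bd.K) :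
    ∃ δ c : ℝ, ∀ (P : Set (Tile G.S)) (ρ : Finset (Tile G.S)), Packed P →
      Legal G.M P → (ρ : Set (Tile G.S)) ⊆ P →
      |(patternCount A ρ : ℝ) - δ * ρ.card| ≤ c * perimeter ρ := by
  classical
  have hD : (Bd.K : ℤ) ≤ G.D := Bd.hKD
  have hDr : (Bd.K : ℝ) ≤ (G.D : ℝ) := by exact_mod_cast hD
  by_cases hgrid : ∃ a0 ∈ A, ∃ a ∈ A, ∀ m n : ℤ, a.2 - a0.2 ≠ pt m n
  · -- non-integral offsets: the pattern does not occur
    obtain ⟨a0, ha0, a, ha, hmn⟩ := hgrid
    refine ⟨0, 0, ?_⟩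
    intro P ρ hP hL hρ
    have h0 : (occ ρ A a0).card = 0 := by
      rw [Finset.card_eq_zero, Finset.eq_empty_iff_forall_notMem]
      intro τ hτ
      rw [mem_occ] at hτ
      have h1 := hτ.2 a ha
      obtain ⟨c, hc, h00, hl⟩ := local_lemma hL (hρ hτ.1)
      obtain ⟨m, n, h2, h3⟩ := hl _ (hρ h1) (by
        intro i
        have := hA a ha a0 ha0 i
        have e : (τ.2 + (a.2 - a0.2)) i - τ.2 i = a.2 i - a0.2 i := by
          simp only [PiLp.add_apply, PiLp.sub_apply]; ring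
        show |(τ.2 + (a.2 - a0.2)) i - τ.2 i| ≤ _
        rw [e]
        linarith)
      exact hmn m n (add_left_cancel h2)
    rw [patternCount_eq hP hρ A a0 ha0, h0]
    simp
  · push Not at hgrid
    by_cases hnb : ∃ a0 ∈ A, a0.1 ≠ Bd.blank
    · obtain ⟨a0, ha0, h0⟩ := hnb
      have hex : ∀ a : Tile G.S, ∃ p : ℤ × ℤ, a ∈ A → a.2 - a0.2 = pt p.1 p.2 := by
        intro a
        by_cases ha : a ∈ A
        · obtain ⟨m, n, h⟩ := hgrid a0 ha0 a ha
          exact ⟨(m, n), fun _ => h⟩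
        · exact ⟨(0, 0), fun h => absurd h ha⟩
      choose p hp using hex
      by_cases hbad : ∃ a ∈ A, a ≠ a0 ∧ (a.1 ≠ Bd.blank ∨ a.2 = a0.2)
      · obtain ⟨a, ha, hne', hbad⟩ := hbad
        refine ⟨0, 0, ?_⟩
        intro P ρ hP hL hρ
        have hz : (occ ρ A a0).card = 0 := by
          rw [Finset.card_eq_zero, Finset.eq_empty_iff_forall_notMem]
          intro τ hτ
          rw [mem_occ] at hτ
          have h1 := hτ.2 a ha
          have h1' := hτ.2 a0 ha0
          have hpos : a.2 = a0.2 := by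
            rcases hbad with hb | hb
            · obtain ⟨c, hc, h00, hl, hl'⟩ := local_lemma' hL (hρ hτ.1)
              have e := hp a ha
              have i0 := hA a ha a0 ha0 0
              have i1 := hA a ha a0 ha0 1
              have e0 : a.2 0 - a0.2 0 = (p a).1 := by
                have := congrArg (fun z : E 2 => z 0) e
                simpa using this
              have e1 : a.2 1 - a0.2 1 = (p a).2 := by
                have := congrArg (fun z : E 2 => z 1) e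
                simpa using this
              rw [e0] at i0
              rw [e1] at i1
              have j0 := abs_cast_lt i0
              have j1 := abs_cast_lt i1
              have c1 := hl' _ (hρ h1) (p a).1 (p a).2 (by linarith) (by linarith) (by
                show τ.2 + (a.2 - a0.2) = _
                rw [e])
              have c2 : c 0 0 = a0.1 := by
                rw [h00]
                rw [sub_self, add_zero] at h1'
                have h4 := eq_of_pos hP hρ h1' hτ.1 rfl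
                rw [← h4]
              have h5 := Bd.hE c hc (p a).1 (p a).2 0 0 (by rw [← c1]; exact hb)
                (by rw [c2]; exact h0) (by rw [sub_zero]; exact j0) (by rw [sub_zero]; exact j1)
              rw [h5.1, h5.2, pt_00] at e
              exact sub_eq_zero.mp e
            · exact hb
          have h2 := eq_of_pos hP hρ h1 h1' (by
            show τ.2 + (a.2 - a0.2) = τ.2 + (a0.2 - a0.2)
            rw [hpos])
          have h3 : a.1 = a0.1 := by
            have h4 := congrArg Prod.fst h2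
            exact h4
          exact hne' (Prod.ext h3 hpos)
        rw [patternCount_eq hP hρ A a0 ha0, hz]
        simp
      · push Not at hbad
        refine ⟨1 / Bd.F2.card, ((∑ a ∈ A, (|(p a).1| + |(p a).2| : ℤ) : ℤ) + (Bd.C1 + Bd.C2)), ?_⟩
        intro P ρ hP hL hρ
        rw [patternCount_eq hP hρ A a0 ha0]
        exact occ_one Bd A hA a0 ha0 (fun a => (p a).1) (fun a => (p a).2) (fun a ha => hp a ha) h0
          (fun a ha hne => hbad a ha hne) hP hL hρ
    · push Not at hnb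
      obtain ⟨a0, ha0⟩ := hne
      have hex : ∀ a : Tile G.S, ∃ p : ℤ × ℤ, a ∈ A → a.2 - a0.2 = pt p.1 p.2 := by
        intro a
        by_cases ha : a ∈ A
        · obtain ⟨m, n, h⟩ := hgrid a0 ha0 a ha
          exact ⟨(m, n), fun _ => h⟩
        · exact ⟨(0, 0), fun h => absurd h ha⟩
      choose p hp using hex
      refine ⟨1 - A.card * (Bd.NB.card / Bd.F2.card),
        2 * (∑ a ∈ A, (|(p a).1| + |(p a).2| : ℤ) : ℤ) + A.card * (Bd.NB.card * (Bd.C1 + Bd.C2)), ?_⟩
      intro P ρ hP hL hρ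
      rw [patternCount_eq hP hρ A a0 ha0]
      exact occ_blank Bd A hA a0 ha0 (fun a => (p a).1) (fun a => (p a).2) (fun a ha => hp a ha) hnb
        hP hL hρ

end GridSys

end Pool.Agent.H50R3.AMR
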