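import Mathlib

/-!
A Kari-type aperiodic Wang system: rows multiply the density of the row below by `2` or by `1/3`.
-/

set_option autoImplicit false

namespace Pool.Agent.H50R3.AMR

open Finset

/-- small integer labels -/
abbrev Lab : Type := {x : ℤ // x ∈ Finset.Icc (0 : ℤ) 6}

/-- Wang tiles (with a tag for the multiplier): tag, bottom, top, left, right. -/
structure WT where
  q : Bool
  a : Lab
  b : Lab
  l : Lab
  r : Lab
deriving DecidableEq

def WT.equivProd : WT ≃ Bool × Lab × Lab × Lab × Lab where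
  toFun t := (t.q, t.a, t.b, t.l, t.r)
  invFun p := ⟨p.1, p.2.1, p.2.2.1, p.2.2.2.1, p.2.2.2.2⟩
  left_inv t := rfl
  right_inv p := rfl

noncomputable instance : Fintype WT := Fintype.ofEquiv _ WT.equivProd.symm

instance : Nonempty WT :=
  ⟨⟨true, ⟨0, by decide⟩, ⟨0, by decide⟩, ⟨0, by decide⟩, ⟨0, by decide⟩⟩⟩

/-- validity of a single tile -/
def WT.ok (t : WT) : Prop :=
  1 ≤ (t.a : ℤ) ∧ 1 ≤ (t.b : ℤ) ∧
  (t.q = false → (t.b : ℤ) + t.l = 2 * t.a + t.r) ∧
  (t.q = true → (t.a : ℤ) + t.l = 3 * t.b + t.r)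

/-- valid configurations -/
def Valid (w : ℤ → ℤ → WT) : Prop :=
  ∀ i j, (w i j).ok ∧ (w (i+1) j).l = (w i j).r ∧ (w (i+1) j).q = (w i j).q ∧
    (w i (j+1)).a = (w i j).b

theorem Valid.shift {w : ℤ → ℤ → WT} (h : Valid w) (u v : ℤ) :
    Valid (fun i j => w (i+u) (j+v)) := by
  intro i j
  have := h (i+u) (j+v)
  have e1 : i + 1 + u = i + u + 1 := by ring
  have e2 : j + 1 + v = j + v + 1 := by ring
  simp only [e1, e2]
  exact this

/-- local characterisation -/
theorem Valid.of_local {w : ℤ → ℤ → WT}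
    (h : ∀ i j, ∃ w', Valid w' ∧ ∃ i' j', w i j = w' i' j' ∧ w (i+1) j = w' (i'+1) j' ∧
      w i (j+1) = w' i' (j'+1)) : Valid w := by
  intro i j
  obtain ⟨w', hw', i', j', h1, h2, h3⟩ := h i j
  rw [h1, h2, h3]
  exact hw' i' j'

/-! ### Existence -/

abbrev Orb : Type := {x : ℝ // 1 ≤ x ∧ x < 6}

noncomputable def stepFun (x : Orb) : Orb :=
  if h : (x : ℝ) < 3 then ⟨2 * x, by have := x.2; constructor <;> linarith [this.1, this.2]⟩
  else ⟨x / 3, by have := x.2; push Not at h; constructor <;> linarith [this.1, this.2]⟩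

noncomputable def stepInv (x : Orb) : Orb :=
  if h : (x : ℝ) < 2 then ⟨3 * x, by have := x.2; constructor <;> linarith [this.1, this.2]⟩
  else ⟨x / 2, by have := x.2; push Not at h; constructor <;> linarith [this.1, this.2]⟩

noncomputable def step : Equiv.Perm Orb where
  toFun := stepFun
  invFun := stepInv
  left_inv x := by
    have hx := x.2
    unfold stepFun stepInv
    by_cases h : (x : ℝ) < 3
    · rw [dif_pos h]
      have : ¬ ((2 * (x : ℝ)) < 2) := by linarith [hx.1]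
      simp only [this, dif_neg, not_false_eq_true]
      ext; simp
    · rw [dif_neg h]
      have : (x : ℝ) / 3 < 2 := by linarith [hx.2]
      simp only [this, dif_pos]
      ext; simp; ring
  right_inv x := by
    have hx := x.2
    unfold stepFun stepInv
    by_cases h : (x : ℝ) < 2
    · rw [dif_pos h]
      have : ¬ ((3 * (x : ℝ)) < 3) := by linarith [hx.1]
      simp only [this, dif_neg, not_false_eq_true]
      ext; simp
    · rw [dif_neg h]
      have : (x : ℝ) / 2 < 3 := by linarith [hx.2]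
      simp only [this, dif_pos]
      ext; simp; ring

noncomputable def orb (j : ℤ) : Orb := (step ^ j) ⟨1, by norm_num⟩

theorem orb_succ (j : ℤ) : orb (j+1) = stepFun (orb j) := by
  unfold orb
  rw [add_comm, zpow_one_add]
  rfl

theorem orb_cases (j : ℤ) :
    ((orb j : ℝ) < 3 ∧ (orb (j+1) : ℝ) = 2 * orb j) ∨
    (¬ (orb j : ℝ) < 3 ∧ (orb (j+1) : ℝ) = orb j / 3) := by
  rw [orb_succ]
  unfold stepFun
  by_cases h : (orb j : ℝ) < 3
  · left; rw [dif_pos h]; exact ⟨h, rfl⟩
  · right; rw [dif_neg h]; exact ⟨h, rfl⟩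

/-- Beatty difference -/
noncomputable def bd (x : ℝ) (i : ℤ) : ℤ := ⌊(i : ℝ) * x⌋ - ⌊((i - 1 : ℤ) : ℝ) * x⌋

theorem bd_mem (x : ℝ) (h1 : 1 ≤ x) (h6 : x < 6) (i : ℤ) : 1 ≤ bd x i ∧ bd x i ≤ 6 := by
  unfold bd
  have e : ((i : ℝ)) * x = ((i - 1 : ℤ) : ℝ) * x + x := by push_cast; ring
  rw [e]
  set y := ((i - 1 : ℤ) : ℝ) * x
  have a1 := Int.floor_le y
  have a2 := Int.lt_floor_add_one y
  have b1 := Int.floor_le (y + x)
  have b2 := Int.lt_floor_add_one (y + x)
  constructor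
  · have : (0 : ℝ) < (⌊y + x⌋ : ℝ) - ⌊y⌋ + 1 - 0 := by linarith
    have h : ((⌊y⌋ : ℤ) : ℝ) + 1 ≤ y + x := by linarith
    have : ⌊y⌋ + 1 ≤ ⌊y + x⌋ := by
      apply Int.le_floor.mpr
      push_cast; linarith
    linarith
  · have : ((⌊y + x⌋ - ⌊y⌋ : ℤ) : ℝ) < 7 := by push_cast; linarith
    have : ⌊y + x⌋ - ⌊y⌋ < 7 := by exact_mod_cast this
    linarith

noncomputable def k2 (x : ℝ) (i : ℤ) : ℤ := ⌊(i : ℝ) * (2 * x)⌋ - 2 * ⌊(i : ℝ) * x⌋

theorem k2_mem (x : ℝ) (i : ℤ) : 0 ≤ k2 x i ∧ k2 x i ≤ 6 := by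
  unfold k2
  have e : (i : ℝ) * (2 * x) = 2 * ((i : ℝ) * x) := by ring
  rw [e]
  set y := (i : ℝ) * x
  have a1 := Int.floor_le y
  have a2 := Int.lt_floor_add_one y
  have b1 := Int.floor_le (2 * y)
  have b2 := Int.lt_floor_add_one (2 * y)
  constructor
  · have : 2 * ⌊y⌋ ≤ ⌊2 * y⌋ := by
      apply Int.le_floor.mpr
      push_cast; linarith
    linarith
  · have : ((⌊2 * y⌋ - 2 * ⌊y⌋ : ℤ) : ℝ) < 2 := by push_cast; linarith
    have : ⌊2 * y⌋ - 2 * ⌊y⌋ < 2 := by exact_mod_cast this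
    linarith

noncomputable def k3 (x : ℝ) (i : ℤ) : ℤ := ⌊(i : ℝ) * x⌋ - 3 * ⌊(i : ℝ) * (x / 3)⌋

theorem k3_mem (x : ℝ) (i : ℤ) : 0 ≤ k3 x i ∧ k3 x i ≤ 6 := by
  unfold k3
  have e : (i : ℝ) * x = 3 * ((i : ℝ) * (x / 3)) := by ring
  rw [e]
  set y := (i : ℝ) * (x / 3)
  have a1 := Int.floor_le y
  have a2 := Int.lt_floor_add_one y
  have b1 := Int.floor_le (3 * y)
  have b2 := Int.lt_floor_add_one (3 * y)
  constructor
  · have : 3 * ⌊y⌋ ≤ ⌊3 * y⌋ := by
      apply Int.le_floor.mpr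
      push_cast; linarith
    linarith
  · have : ((⌊3 * y⌋ - 3 * ⌊y⌋ : ℤ) : ℝ) < 3 := by push_cast; linarith
    have : ⌊3 * y⌋ - 3 * ⌊y⌋ < 3 := by exact_mod_cast this
    linarith

noncomputable def labBd (j i : ℤ) : Lab :=
  ⟨bd (orb j) i, by
    have := bd_mem (orb j) (orb j).2.1 (orb j).2.2 i
    rw [Finset.mem_Icc]; omega⟩

noncomputable def labK (j i : ℤ) : Lab :=
  ⟨if (orb j : ℝ) < 3 then k2 (orb j) i else k3 (orb j) i, by
    have h2 := k2_mem (orb j) i
    have h3 := k3_mem (orb j) i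
    rw [Finset.mem_Icc]; split_ifs <;> assumption⟩

open Classical in
noncomputable def wconf (i j : ℤ) : WT where
  q := if (orb j : ℝ) < 3 then false else true
  a := labBd j i
  b := labBd (j+1) i
  l := labK j (i-1)
  r := labK j i

theorem wconf_valid : Valid wconf := by
  intro i j
  refine ⟨⟨?_, ?_, ?_, ?_⟩, ?_, ?_, ?_⟩
  · exact (bd_mem (orb j) (orb j).2.1 (orb j).2.2 i).1
  · exact (bd_mem (orb (j+1)) (orb (j+1)).2.1 (orb (j+1)).2.2 i).1
  · intro hq
    rcases orb_cases j with ⟨h, h'⟩ | ⟨h, h'⟩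
    · simp only [wconf, labBd, labK, h, if_true, h']
      unfold bd k2
      ring
    · exfalso
      simp [wconf, h] at hq
  · intro hq
    rcases orb_cases j with ⟨h, h'⟩ | ⟨h, h'⟩
    · exfalso
      simp [wconf, h] at hq
    · simp only [wconf, labBd, labK, h, if_false, h']
      unfold bd k3
      ring
  · show labK j (i + 1 - 1) = labK j i
    rw [add_sub_cancel_right]
  · rfl
  · rfl

/-! ### Aperiodicity -/

/-- row sums -/
def rs (w : ℤ → ℤ → WT) (n : ℕ) (j : ℤ) : ℤ := ∑ i ∈ range n, ((w (i : ℤ) j).a : ℤ)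

theorem lab_bd (x : Lab) : 0 ≤ (x : ℤ) ∧ (x : ℤ) ≤ 6 := Finset.mem_Icc.mp x.2

theorem q_const {w : ℤ → ℤ → WT} (h : Valid w) (j : ℤ) (n : ℕ) : (w n j).q = (w 0 j).q := by
  induction n with
  | zero => simp
  | succ n ih => 
    have := (h n j).2.2.1
    push_cast
    rw [this, ih]

theorem row_false {w : ℤ → ℤ → WT} (h : Valid w) (j : ℤ) (hq : (w 0 j).q = false) (n : ℕ) :
    rs w n (j+1) + (w 0 j).l = 2 * rs w n j + (w n j).l := by
  unfold rs
  induction n with
  | zero => simp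
  | succ n ih =>
    rw [Finset.sum_range_succ, Finset.sum_range_succ]
    have h1 := (h n j).1.2.2.1 (by rw [q_const h, hq])
    have h2 := (h n j).2.1
    have h3 := (h n j).2.2.2
    have h2' : ((w (((n : ℕ) : ℤ)+1) j).l : ℤ) = (w (n : ℤ) j).r := by rw [h2]
    have h3' : ((w (n : ℤ) (j+1)).a : ℤ) = (w (n : ℤ) j).b := by rw [h3]
    push_cast
    rw [h2', h3']
    linarith

theorem row_true {w : ℤ → ℤ → WT} (h : Valid w) (j : ℤ) (hq : (w 0 j).q = true) (n : ℕ) :
    rs w n j + (w 0 j).l = 3 * rs w n (j+1) + (w n j).l := by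
  unfold rs
  induction n with
  | zero => simp
  | succ n ih =>
    rw [Finset.sum_range_succ, Finset.sum_range_succ]
    have h1 := (h n j).1.2.2.2 (by rw [q_const h, hq])
    have h2 := (h n j).2.1
    have h3 := (h n j).2.2.2
    have h2' : ((w (((n : ℕ) : ℤ)+1) j).l : ℤ) = (w (n : ℤ) j).r := by rw [h2]
    have h3' : ((w (n : ℤ) (j+1)).a : ℤ) = (w (n : ℤ) j).b := by rw [h3]
    push_cast
    rw [h2', h3']
    linarith

theorem rs_ge {w : ℤ → ℤ → WT} (h : Valid w) (n : ℕ) (j : ℤ) : (n : ℤ) ≤ rs w n j := by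
  unfold rs
  calc (n : ℤ) = ∑ i ∈ range n, (1 : ℤ) := by simp
    _ ≤ _ := Finset.sum_le_sum (fun i _ => (h i j).1.1)

theorem rs_le (w : ℤ → ℤ → WT) (n : ℕ) (j : ℤ) : rs w n j ≤ 6 * n := by
  unfold rs
  calc _ ≤ ∑ i ∈ range n, (6 : ℤ) := Finset.sum_le_sum (fun i _ => (lab_bd _).2)
    _ = _ := by simp; ring

theorem pow_ne {α β : ℕ} (h : 0 < α + β) : (3 : ℤ)^β ≠ 2^α := by
  intro he
  rcases Nat.eq_zero_or_pos α with h0 | h0
  · subst h0
    have hb : β ≠ 0 := by omega
    have : (1 : ℤ) < 3 ^ β := one_lt_pow₀ (by norm_num) hb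
    simp at he
    omega
  · have h2 : Even ((2 : ℤ)^α) := (Int.even_pow.mpr ⟨by decide, by omega⟩)
    have h3 : Odd ((3 : ℤ)^β) := Odd.pow (by decide)
    rw [he] at h3
    exact (Int.not_even_iff_odd.mpr h3) h2

/-- approximate multiplication over `m` rows -/
theorem rows_approx {w : ℤ → ℤ → WT} (h : Valid w) (j : ℤ) (m : ℕ) :
    ∃ α β : ℕ, α + β = m ∧ ∃ C : ℤ, ∀ n, |3^β * rs w n (j+m) - 2^α * rs w n j| ≤ C := by
  induction m with
  | zero => exact ⟨0, 0, rfl, 0, by intro n; simp⟩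
  | succ m ih =>
    obtain ⟨α, β, hm, C, hC⟩ := ih
    rcases hq : (w 0 (j+m)).q with _ | _
    · refine ⟨α+1, β, by omega, 3^β * 6 + 2 * C, ?_⟩
      intro n
      have h1 := row_false h (j+m) hq n
      have h2 := hC n
      have a1 := lab_bd (w 0 (j+m)).l
      have a2 := lab_bd (w n (j+m)).l
      have e : j + ((m+1 : ℕ) : ℤ) = j + m + 1 := by push_cast; ring
      rw [e]
      have h1' : rs w n (j+m+1) = 2 * rs w n (j+m) + ((w n (j+m)).l - (w 0 (j+m)).l) := by linarith
      rw [h1']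
      have e2 : (3:ℤ)^β * (2 * rs w n (j+m) + ((w n (j+m)).l - (w 0 (j+m)).l)) - 2^(α+1) * rs w n j
         = 3^β * (((w n (j+m)).l : ℤ) - (w 0 (j+m)).l) + 2 * (3^β * rs w n (j+m) - 2^α * rs w n j) := by
        rw [pow_succ]; ring
      rw [e2]
      calc _ ≤ |3^β * (((w n (j+m)).l : ℤ) - (w 0 (j+m)).l)| + |2 * (3^β * rs w n (j+m) - 2^α * rs w n j)| := abs_add_le _ _
        _ ≤ _ := by
          rw [abs_mul, abs_mul]
          have : |((w n (j+m)).l : ℤ) - (w 0 (j+m)).l| ≤ 6 := by rw [abs_le]; constructor <;> omega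
          have h3 : (0:ℤ) < 3^β := by positivity
          rw [abs_of_pos h3, abs_of_pos (by norm_num : (0:ℤ) < 2)]
          nlinarith
    · refine ⟨α, β+1, by omega, 3^β * 6 + C, ?_⟩
      intro n
      have h1 := row_true h (j+m) hq n
      have h2 := hC n
      have a1 := lab_bd (w 0 (j+m)).l
      have a2 := lab_bd (w n (j+m)).l
      have e : j + ((m+1 : ℕ) : ℤ) = j + m + 1 := by push_cast; ring
      rw [e]
      have e2 : (3:ℤ)^(β+1) * rs w n (j+m+1) - 2^α * rs w n j
         = 3^β * (((w 0 (j+m)).l : ℤ) - (w n (j+m)).l) + (3^β * rs w n (j+m) - 2^α * rs w n j) := by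
        rw [pow_succ]
        have : 3 * rs w n (j+m+1) = rs w n (j+m) + ((w 0 (j+m)).l - (w n (j+m)).l) := by linarith
        calc (3:ℤ)^β * 3 * rs w n (j+m+1) - 2^α * rs w n j = 3^β * (3 * rs w n (j+m+1)) - 2^α * rs w n j := by ring
          _ = _ := by rw [this]; ring
      rw [e2]
      calc _ ≤ |3^β * (((w 0 (j+m)).l : ℤ) - (w n (j+m)).l)| + |(3^β * rs w n (j+m) - 2^α * rs w n j)| := abs_add_le _ _
        _ ≤ _ := by
          rw [abs_mul]
          have : |((w 0 (j+m)).l : ℤ) - (w n (j+m)).l| ≤ 6 := by rw [abs_le]; constructor <;> omega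
          have h3 : (0:ℤ) < 3^β := by positivity
          rw [abs_of_pos h3]
          nlinarith

/-- shifting the window changes sums by a bounded amount -/
theorem rs_shift (w : ℤ → ℤ → WT) (u j : ℤ) :
    ∃ C : ℤ, ∀ n : ℕ, |(∑ i ∈ range n, ((w ((i : ℤ) + u) j).a : ℤ)) - rs w n j| ≤ C := by
  -- one step
  have key : ∀ (u : ℤ) (n : ℕ), |(∑ i ∈ range n, ((w ((i : ℤ) + (u+1)) j).a : ℤ)) -
      (∑ i ∈ range n, ((w ((i : ℤ) + u) j).a : ℤ))| ≤ 6 := by
    intro u n
    have : (∑ i ∈ range n, ((w ((i : ℤ) + (u+1)) j).a : ℤ)) -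
      (∑ i ∈ range n, ((w ((i : ℤ) + u) j).a : ℤ)) = (w ((n : ℤ) + u) j).a - (w u j).a := by
      induction n with
      | zero => simp
      | succ n ih =>
        rw [Finset.sum_range_succ, Finset.sum_range_succ]
        have e : ((n : ℤ) + (u+1)) = (((n + 1 : ℕ) : ℤ) + u) := by push_cast; ring
        rw [e]
        linarith
    rw [this, abs_le]
    have a1 := lab_bd (w ((n : ℤ) + u) j).a
    have a2 := lab_bd (w u j).a
    constructor <;> omega
  induction u using Int.induction_on with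
  | zero => exact ⟨0, by intro n; simp [rs]⟩
  | succ i ih =>
    obtain ⟨C, hC⟩ := ih
    refine ⟨C + 6, fun n => ?_⟩
    have h1 := hC n
    have h2 := key i n
    rw [abs_le] at *
    constructor <;> linarith [h1.1, h1.2, h2.1, h2.2]
  | pred i ih =>
    obtain ⟨C, hC⟩ := ih
    refine ⟨C + 6, fun n => ?_⟩
    have h1 := hC n
    have h2 := key (-(i:ℤ) - 1) n
    rw [sub_add_cancel] at h2
    rw [abs_le] at *
    constructor <;> linarith [h1.1, h1.2, h2.1, h2.2]

theorem no_period_pos {w : ℤ → ℤ → WT} (h : Valid w) (u : ℤ) (v : ℕ) (hv : 0 < v)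
    (hp : ∀ i j, w (i+u) (j+v) = w i j) : False := by
  obtain ⟨α, β, hab, C, hC⟩ := rows_approx h 0 v
  obtain ⟨C', hC'⟩ := rs_shift (fun i j => w i j) (-u) 0
  have hne := pow_ne (α := α) (β := β) (by omega)
  have h3 : (0:ℤ) < 3^β := by positivity
  -- rs w n v = shifted sum
  have hs : ∀ n : ℕ, rs w n (0 + v) = ∑ i ∈ range n, ((w ((i : ℤ) + (-u)) 0).a : ℤ) := by
    intro n
    unfold rs
    apply Finset.sum_congr rfl
    intro i _
    have := hp ((i : ℤ) + (-u)) 0
    rw [neg_add_cancel_right] at this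
    rw [this]
  have key : ∀ n : ℕ, (n : ℤ) ≤ C + 3^β * C' := by
    intro n
    have h1 := hC n
    have h2 := hC' n
    rw [hs n] at h1
    set s := ∑ i ∈ range n, ((w ((i : ℤ) + (-u)) 0).a : ℤ)
    set t := rs w n 0 with ht
    have h2' : |s - t| ≤ C' := h2
    have hge := rs_ge h n 0
    have h4 : |(3^β - 2^α) * t| ≤ C + 3^β * C' := by
      have : (3^β - 2^α) * t = (3^β * s - 2^α * t) + (-(3^β * (s - t))) := by ring
      rw [this]
      calc _ ≤ |3^β * s - 2^α * t| + |-(3^β * (s - t))| := abs_add_le _ _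
        _ ≤ _ := by
          rw [abs_neg, abs_mul, abs_of_pos h3]
          nlinarith
    rw [abs_mul] at h4
    have h5 : 1 ≤ |(3:ℤ)^β - 2^α| := by
      apply Int.one_le_abs
      exact sub_ne_zero.mpr hne
    have h6 : |t| = t := abs_of_nonneg (le_trans (by positivity) hge)
    rw [h6] at h4
    nlinarith
  have := key (C + 3^β * C' + 1).toNat
  have h7 : (C + 3^β * C' + 1) ≤ ((C + 3^β * C' + 1).toNat : ℤ) := Int.self_le_toNat _
  linarith

theorem no_hperiod {w : ℤ → ℤ → WT} (h : Valid w) (u : ℕ) (hu : 0 < u)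
    (hp : ∀ i j, w (i+u) j = w i j) : False := by
  -- exact multiplication
  have hl : ∀ j, (w u j).l = (w 0 j).l := by
    intro j
    have := hp 0 j
    rw [zero_add] at this
    rw [this]
  have step : ∀ j : ℕ, ∀ m : ℕ, ∃ α β : ℕ, α + β = m ∧ 3^β * rs w u (j+m) = 2^α * rs w u j := by
    intro j m
    induction m with
    | zero => exact ⟨0, 0, rfl, by simp⟩
    | succ m ih =>
      obtain ⟨α, β, hm, hC⟩ := ih
      have e : (j : ℤ) + ((m+1 : ℕ) : ℤ) = j + m + 1 := by push_cast; ring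
      rcases hq : (w 0 (j+m)).q with _ | _
      · refine ⟨α+1, β, by omega, ?_⟩
        have h1 := row_false h (j+m) hq u
        rw [hl] at h1
        rw [e]
        have : rs w u (j+m+1) = 2 * rs w u (j+m) := by linarith
        rw [this, pow_succ]
        calc (3:ℤ)^β * (2 * rs w u (j+m)) = 2 * (3^β * rs w u (j+m)) := by ring
          _ = _ := by rw [hC]; ring
      · refine ⟨α, β+1, by omega, ?_⟩
        have h1 := row_true h (j+m) hq u
        rw [hl] at h1
        rw [e]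
        have : rs w u (j+m) = 3 * rs w u (j+m+1) := by linarith
        rw [this] at hC
        rw [pow_succ, ← hC]; ring
  -- pigeonhole
  have : ∃ x y : ℕ, x ≠ y ∧ (rs w u (x : ℤ)) = rs w u (y : ℤ) := by
    by_contra hcon
    push Not at hcon
    have hinj : Function.Injective (fun x : ℕ => (⟨(rs w u (x:ℤ)), by
        rw [Finset.mem_Icc]
        exact ⟨le_trans (by positivity) (rs_ge h u x), rs_le w u x⟩⟩ : {y : ℤ // y ∈ Finset.Icc (0:ℤ) (6 * u)})) := by
      intro x y hxy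
      by_contra hne
      exact hcon x y hne (by simpa using hxy)
    exact not_injective_infinite_finite _ hinj
  obtain ⟨x, y, hne, he⟩ := this
  wlog hlt : x < y generalizing x y
  · exact this y x hne.symm he.symm (by omega)
  obtain ⟨α, β, hab, hs⟩ := step x (y - x)
  have e : (x : ℤ) + ((y - x : ℕ) : ℤ) = y := by omega
  rw [e, ← he] at hs
  have hpos : 0 < rs w u x := lt_of_lt_of_le (by exact_mod_cast hu) (rs_ge h u x)
  have := mul_right_cancel₀ hpos.ne' hs
  exact pow_ne (by omega) this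

theorem aperiodic {w : ℤ → ℤ → WT} (h : Valid w) (u v : ℤ)
    (hp : ∀ i j, w (i+u) (j+v) = w i j) : u = 0 ∧ v = 0 := by
  have hp' : ∀ i j, w (i+(-u)) (j+(-v)) = w i j := by
    intro i j
    have := hp (i + -u) (j + -v)
    rw [neg_add_cancel_right, neg_add_cancel_right] at this
    exact this.symm
  rcases lt_trichotomy v 0 with hv | hv | hv
  · exfalso
    apply no_period_pos h (-u) (-v).toNat (by omega)
    intro i j
    rw [Int.toNat_of_nonneg (by omega)]
    exact hp' i j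
  · subst hv
    rcases lt_trichotomy u 0 with hu | hu | hu
    · exfalso
      apply no_hperiod h (-u).toNat (by omega)
      intro i j
      rw [Int.toNat_of_nonneg (by omega)]
      have := hp' i j
      simpa using this
    · exact ⟨hu, rfl⟩
    · exfalso
      apply no_hperiod h u.toNat (by omega)
      intro i j
      rw [Int.toNat_of_nonneg (by omega)]
      have := hp i j
      simpa using this
  · exfalso
    apply no_period_pos h u v.toNat (by omega)
    intro i j
    rw [Int.toNat_of_nonneg (by omega)]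
    exact hp i j

end Pool.Agent.H50R3.AMR
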