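import Mathlib
import Pool.Agent.H50R3.AMR.Wang

/-!
Constant-composition block coding of the Wang system: every row is cut into blocks of length
`L = n + 1` (`n` the number of Wang tiles); a block consists of a marker followed by all `n` Wang
tiles, cyclically rotated so that the first one is the encoded symbol.
-/

set_option autoImplicit false

namespace Pool.Agent.H50R3.AMR

/-- labels of the recoded system: `none` is the marker. -/
abbrev Lbl : Type := Option WT

theorem exists_rot {α : Type} [Fintype α] (n : ℕ) [NeZero n] (e : α ≃ ZMod n) :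
    ∃ rot : α → ℤ → α, (∀ t, rot t 0 = t) ∧
      (∀ t t', ∃ m : ℤ, 0 ≤ m ∧ m < n ∧ rot t m = t') ∧
      (∀ t (m m' : ℤ), 0 ≤ m → m < n → 0 ≤ m' → m' < n → rot t m = rot t m' → m = m') := by
  refine ⟨fun t m => e.symm (e t + (m : ZMod n)), ?_, ?_, ?_⟩
  · intro t; simp
  · intro t t'
    refine ⟨((e t' - e t).val : ℤ), by positivity, ?_, ?_⟩
    · exact_mod_cast ZMod.val_lt _
    · simp only
      rw [Int.cast_natCast, ZMod.natCast_zmod_val]
      simp
  · intro t m m' h0 h1 h0' h1' h
    have h2 := e.symm.injective h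
    have h3 : (m : ZMod n) = (m' : ZMod n) := add_left_cancel h2
    rw [ZMod.intCast_eq_intCast_iff] at h3
    have h4 : m % n = m' % n := h3
    rwa [Int.emod_eq_of_lt h0 h1, Int.emod_eq_of_lt h0' h1'] at h4

theorem exists_rotW : ∃ (n : ℕ) (rot : WT → ℤ → WT), 0 < n ∧ (∀ t, rot t 0 = t) ∧
      (∀ t t', ∃ m : ℤ, 0 ≤ m ∧ m < n ∧ rot t m = t') ∧
      (∀ t (m m' : ℤ), 0 ≤ m → m < n → 0 ≤ m' → m' < n → rot t m = rot t m' → m = m') := by
  have key : ∀ n : ℕ, n = Fintype.card WT → n ≠ 0 → ∃ (n : ℕ) (rot : WT → ℤ → WT), 0 < n ∧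
      (∀ t, rot t 0 = t) ∧
      (∀ t t', ∃ m : ℤ, 0 ≤ m ∧ m < n ∧ rot t m = t') ∧
      (∀ t (m m' : ℤ), 0 ≤ m → m < n → 0 ≤ m' → m' < n → rot t m = rot t m' → m = m') := by
    intro n hn hn0
    haveI : NeZero n := ⟨hn0⟩
    obtain ⟨rot, hrot⟩ := exists_rot (α := WT) n
      ((Fintype.equivFinOfCardEq hn.symm).trans (ZMod.finEquiv n).toEquiv)
    exact ⟨n, rot, Nat.pos_of_ne_zero hn0, hrot⟩
  exact key _ rfl Fintype.card_ne_zero

/-- number of Wang tiles -/
noncomputable def nW : ℕ := exists_rotW.choose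

/-- cyclic rotation of the Wang tiles -/
noncomputable def rot : WT → ℤ → WT := exists_rotW.choose_spec.choose

theorem nW_pos : 0 < nW := exists_rotW.choose_spec.choose_spec.1

theorem rot_zero (t : WT) : rot t 0 = t := exists_rotW.choose_spec.choose_spec.2.1 t

theorem rot_surj (t t' : WT) : ∃ m : ℤ, 0 ≤ m ∧ m < nW ∧ rot t m = t' :=
  exists_rotW.choose_spec.choose_spec.2.2.1 t t'

theorem rot_inj (t : WT) {m m' : ℤ} (h0 : 0 ≤ m) (h1 : m < nW) (h0' : 0 ≤ m') (h1' : m' < nW)
    (h : rot t m = rot t m') : m = m' :=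
  exists_rotW.choose_spec.choose_spec.2.2.2 t m m' h0 h1 h0' h1' h

/-- block length -/
noncomputable def LL : ℤ := (nW : ℤ) + 1

theorem LL_pos : 0 < LL := by unfold LL; positivity

theorem LL_ge_two : 2 ≤ LL := by
  unfold LL
  have := nW_pos
  have : (1 : ℤ) ≤ nW := by exact_mod_cast this
  linarith

open Classical in
noncomputable def enc (w : ℤ → ℤ → WT) (x y : ℤ) : Lbl :=
  if x % LL = 0 then none else some (rot (w (x / LL) y) (x % LL - 1))

theorem enc_block (w : ℤ → ℤ → WT) (i k y : ℤ) (h0 : 0 ≤ k) (h1 : k < LL) :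
    enc w (LL * i + k) y = if k = 0 then none else some (rot (w i y) (k - 1)) := by
  have e1 : (LL * i + k) % LL = k := by
    rw [add_comm, Int.add_mul_emod_self_left]
    exact Int.emod_eq_of_lt h0 h1
  have e2 : (LL * i + k) / LL = i := by
    rw [add_comm, Int.add_mul_ediv_left _ _ LL_pos.ne', Int.ediv_eq_zero_of_lt h0 h1, zero_add]
  unfold enc
  rw [e1, e2]

theorem enc_marker (w : ℤ → ℤ → WT) (i y : ℤ) : enc w (LL * i) y = none := by
  have := enc_block w i 0 y le_rfl LL_pos
  simpa using this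

theorem enc_one (w : ℤ → ℤ → WT) (i y : ℤ) : enc w (LL * i + 1) y = some (w i y) := by
  have := enc_block w i 1 y (by norm_num) (by linarith [LL_ge_two])
  rw [this]
  simp [rot_zero]

theorem enc_eq_none_iff (w : ℤ → ℤ → WT) (x y : ℤ) : enc w x y = none ↔ x % LL = 0 := by
  unfold enc
  split_ifs with h
  · simp [h]
  · simp [h]

theorem enc_shift (w : ℤ → ℤ → WT) (m x y : ℤ) :
    enc w (x + LL * m) y = enc (fun i j => w (i + m) j) x y := by
  unfold enc
  rw [Int.add_mul_emod_self_left, Int.add_mul_ediv_left _ _ LL_pos.ne']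

/-- the recoded subshift -/
def IsEnc (c : ℤ → ℤ → Lbl) : Prop :=
  ∃ w s, Valid w ∧ ∀ x y, c x y = enc w (x + s) y

theorem IsEnc.nonempty : ∃ c, IsEnc c := ⟨fun x y => enc wconf (x + 0) y, wconf, 0, wconf_valid,
  fun _ _ => rfl⟩

theorem IsEnc.shift {c : ℤ → ℤ → Lbl} (h : IsEnc c) (a b : ℤ) :
    IsEnc (fun x y => c (x + a) (y + b)) := by
  obtain ⟨w, s, hw, hc⟩ := h
  refine ⟨fun i j => w (i + 0) (j + b), a + s, hw.shift 0 b, ?_⟩
  intro x y
  show c (x + a) (y + b) = _
  rw [hc]
  unfold enc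
  rw [← add_assoc]
  simp only [add_zero]

/-- centred form: if the origin carries a marker the shift can be taken to be zero. -/
theorem IsEnc.centred {c : ℤ → ℤ → Lbl} (h : IsEnc c) (h0 : c 0 0 = none) :
    ∃ w, Valid w ∧ ∀ x y, c x y = enc w x y := by
  obtain ⟨w, s, hw, hc⟩ := h
  rw [hc, enc_eq_none_iff, zero_add] at h0
  obtain ⟨m, hm⟩ := Int.dvd_of_emod_eq_zero h0
  refine ⟨fun i j => w (i + m) j, by simpa using hw.shift m 0, ?_⟩
  intro x y
  rw [hc, hm, enc_shift]

theorem IsEnc.centred' {c : ℤ → ℤ → Lbl} (h : IsEnc c) (x0 y0 : ℤ) (h0 : c x0 y0 = none) :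
    ∃ w, Valid w ∧ ∀ x y, c (x0 + x) (y0 + y) = enc w x y := by
  obtain ⟨w, hw, hc⟩ := (h.shift x0 y0).centred (by simpa using h0)
  refine ⟨w, hw, fun x y => ?_⟩
  rw [← hc, add_comm x0, add_comm y0]

/-- every cell has a marker at distance `< L` to its left -/
theorem IsEnc.marker_left {c : ℤ → ℤ → Lbl} (h : IsEnc c) (x y : ℤ) :
    ∃ k, 0 ≤ k ∧ k < LL ∧ c (x - k) y = none := by
  obtain ⟨w, s, hw, hc⟩ := h
  refine ⟨(x + s) % LL, Int.emod_nonneg _ LL_pos.ne', Int.emod_lt_of_pos _ LL_pos, ?_⟩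
  rw [hc, enc_eq_none_iff]
  have : x - (x + s) % LL + s = LL * ((x + s) / LL) := by
    have := Int.emod_add_mul_ediv (x + s) LL
    linarith
  rw [this]
  exact Int.mul_emod_right _ _

/-- a block starting at a marker contains every label -/
theorem IsEnc.block_surj {c : ℤ → ℤ → Lbl} (h : IsEnc c) (x y : ℤ) (h0 : c x y = none) (t : Lbl) :
    ∃ k, 0 ≤ k ∧ k < LL ∧ c (x + k) y = t := by
  obtain ⟨w, hw, hc⟩ := h.centred' x y h0
  rcases t with _ | t
  · exact ⟨0, le_rfl, LL_pos, by simpa using h0⟩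
  · obtain ⟨m, h1, h2, h3⟩ := rot_surj (w 0 0) t
    refine ⟨m + 1, by linarith, by unfold LL; linarith, ?_⟩
    have := hc (m+1) 0
    rw [add_zero] at this
    rw [this]
    have h4 := enc_block w 0 (m+1) 0 (by linarith) (by unfold LL; linarith)
    rw [mul_zero, zero_add] at h4
    rw [h4, if_neg (by linarith), add_sub_cancel_right, h3]

/-- a block starting at a marker contains every label at most once -/
theorem IsEnc.block_inj {c : ℤ → ℤ → Lbl} (h : IsEnc c) (x y : ℤ) (h0 : c x y = none) {k k' : ℤ}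
    (hk : 0 ≤ k) (hk1 : k < LL) (hk' : 0 ≤ k') (hk1' : k' < LL)
    (he : c (x + k) y = c (x + k') y) : k = k' := by
  obtain ⟨w, hw, hc⟩ := h.centred' x y h0
  have e1 := hc k 0
  have e2 := hc k' 0
  rw [add_zero] at e1 e2
  rw [e1, e2] at he
  have h4 := enc_block w 0 k 0 hk hk1
  have h5 := enc_block w 0 k' 0 hk' hk1'
  rw [mul_zero, zero_add] at h4 h5
  rw [h4, h5] at he
  by_cases hz : k = 0
  · by_cases hz' : k' = 0
    · rw [hz, hz']
    · rw [if_pos hz, if_neg hz'] at he
      exact absurd he (by simp)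
  · by_cases hz' : k' = 0
    · rw [if_neg hz, if_pos hz'] at he
      exact absurd he (by simp)
    · rw [if_neg hz, if_neg hz'] at he
      have h6 := Option.some.inj he
      unfold LL at hk1 hk1'
      have := rot_inj (w 0 0) (by omega) (by linarith) (by omega) (by linarith) h6
      linarith

theorem IsEnc.aperiodic {c : ℤ → ℤ → Lbl} (h : IsEnc c) (u v : ℤ)
    (hp : ∀ x y, c (x + u) (y + v) = c x y) : u = 0 ∧ v = 0 := by
  obtain ⟨w, s, hw, hc⟩ := h
  have h1 := hp (-s) 0
  rw [hc, hc] at h1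
  have h2 : enc w (-s + s) 0 = none := by
    rw [neg_add_cancel]
    simpa using enc_marker w 0 0
  rw [h2, enc_eq_none_iff] at h1
  have e : -s + u + s = u := by ring
  rw [e] at h1
  obtain ⟨m, hm⟩ := Int.dvd_of_emod_eq_zero h1
  have key : ∀ i j, w (i + m) (j + v) = w i j := by
    intro i j
    have h3 := hp (LL * i + 1 - s) j
    rw [hc, hc] at h3
    have e1 : LL * i + 1 - s + u + s = LL * (i + m) + 1 := by rw [hm]; ring
    have e2 : LL * i + 1 - s + s = LL * i + 1 := by ring
    rw [e1, e2, enc_one, enc_one] at h3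
    exact Option.some.inj h3
  obtain ⟨hm0, hv0⟩ := AMR.aperiodic hw m v key
  exact ⟨by rw [hm, hm0, mul_zero], hv0⟩

/-- local characterisation -/
theorem IsEnc.of_local {c : ℤ → ℤ → Lbl}
    (h : ∀ x y, ∃ c', IsEnc c' ∧ ∀ a b, |a| ≤ 2 * LL → |b| ≤ 1 → c (x + a) (y + b) = c' a b) :
    IsEnc c := by
  have hL := LL_ge_two
  have habs : ∀ a : ℤ, 0 ≤ a → a ≤ 2 * LL → |a| ≤ 2 * LL := by
    intro a h1 h2; rw [abs_of_nonneg h1]; exact h2
  have h1abs : |(1:ℤ)| ≤ 1 := by norm_num
  have h0abs : |(0:ℤ)| ≤ 1 := by norm_num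
  -- centred local forms at a marker
  have hcen : ∀ x y, c x y = none → ∃ w, Valid w ∧
      ∀ a b, |a| ≤ 2 * LL → |b| ≤ 1 → c (x + a) (y + b) = enc w a b := by
    intro x y hxy
    obtain ⟨c', hc', hl⟩ := h x y
    have h00 := hl 0 0 (by rw [abs_zero]; linarith) h0abs
    rw [add_zero, add_zero, hxy] at h00
    obtain ⟨w, hw, hcw⟩ := hc'.centred h00.symm
    refine ⟨w, hw, fun a b ha hb => ?_⟩
    rw [hl a b ha hb, hcw]
  -- a marker somewhere in row 0
  obtain ⟨s, hs⟩ : ∃ s, c s 0 = none := by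
    obtain ⟨c', hc', hl⟩ := h 0 0
    obtain ⟨k, hk0, hk1, hk⟩ := hc'.marker_left 0 0
    refine ⟨-k, ?_⟩
    have := hl (-k) 0 (by rw [abs_neg, abs_of_nonneg hk0]; linarith) h0abs
    rw [zero_add, add_zero] at this
    rw [this]
    rwa [zero_sub] at hk
  -- vertical propagation
  have hup : ∀ x y, c x y = none → c x (y+1) = none := by
    intro x y hxy
    obtain ⟨w, hw, hc⟩ := hcen x y hxy
    have := hc 0 1 (by rw [abs_zero]; linarith) h1abs
    rw [add_zero] at this
    rw [this]
    simpa using enc_marker w 0 1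
  have hdown : ∀ x y, c x y = none → c x (y-1) = none := by
    intro x y hxy
    obtain ⟨w, hw, hc⟩ := hcen x y hxy
    have := hc 0 (-1) (by rw [abs_zero]; linarith) (by norm_num)
    rw [add_zero] at this
    rw [sub_eq_add_neg, this]
    simpa using enc_marker w 0 (-1)
  have hright : ∀ x y, c x y = none → c (x+LL) y = none := by
    intro x y hxy
    obtain ⟨w, hw, hc⟩ := hcen x y hxy
    have := hc LL 0 (habs _ (by linarith) (by linarith)) h0abs
    rw [add_zero] at this
    rw [this]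
    simpa using enc_marker w 1 0
  have hleft : ∀ x y, c x y = none → c (x-LL) y = none := by
    intro x y hxy
    obtain ⟨w, hw, hc⟩ := hcen x y hxy
    have := hc (-LL) 0 (by rw [abs_neg]; exact habs _ (by linarith) (by linarith)) h0abs
    rw [add_zero] at this
    rw [sub_eq_add_neg, this]
    simpa using enc_marker w (-1) 0
  have hcol : ∀ y, c s y = none := by
    intro y
    induction y using Int.induction_on with
    | zero => exact hs
    | succ i ih => exact hup _ _ ih
    | pred i ih => exact hdown _ _ ih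
  have hmk : ∀ y i, c (s + LL * i) y = none := by
    intro y i
    induction i using Int.induction_on with
    | zero => simpa using hcol y
    | succ i ih =>
      have := hright _ _ ih
      rw [mul_add, mul_one, ← add_assoc]; exact this
    | pred i ih =>
      have := hleft _ _ ih
      rw [mul_sub, mul_one, ← add_sub_assoc]; exact this
  choose W hW hWc using fun i y => hcen (s + LL * i) y (hmk y i)
  let w : ℤ → ℤ → WT := fun i y => W i y 0 0
  have hone : ∀ i y, c (s + LL * i + 1) y = some (w i y) := by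
    intro i y
    have := hWc i y 1 0 (habs _ (by linarith) (by linarith)) h0abs
    rw [add_zero] at this
    rw [this]
    have h5 := enc_one (W i y) 0 0
    rw [mul_zero, zero_add] at h5
    exact h5
  have hval : Valid w := by
    apply Valid.of_local
    intro i j
    refine ⟨W i j, hW i j, 0, 0, rfl, ?_, ?_⟩
    · have h1 := hone (i+1) j
      have h2 := hWc i j (LL * 1 + 1) 0 (habs _ (by linarith) (by linarith)) h0abs
      rw [enc_one, add_zero] at h2
      have e : s + LL * (i+1) + 1 = s + LL * i + (LL * 1 + 1) := by ring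
      rw [e, h2] at h1
      rw [zero_add]
      exact (Option.some.inj h1).symm
    · have h1 := hone i (j+1)
      have h2 := hWc i j (LL * 0 + 1) 1 (habs _ (by linarith) (by linarith)) h1abs
      rw [enc_one] at h2
      have e : s + LL * i + 1 = s + LL * i + (LL * 0 + 1) := by ring
      rw [e, h2] at h1
      rw [zero_add]
      exact (Option.some.inj h1).symm
  refine ⟨w, -s, hval, ?_⟩
  intro x y
  have hx : x = s + LL * ((x - s) / LL) + (x - s) % LL := by
    have := Int.emod_add_mul_ediv (x - s) LL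
    linarith
  have hk0 : 0 ≤ (x - s) % LL := Int.emod_nonneg _ LL_pos.ne'
  have hk1 : (x - s) % LL < LL := Int.emod_lt_of_pos _ LL_pos
  have h1 := hWc ((x - s) / LL) y ((x - s) % LL) 0 (habs _ hk0 (by linarith)) h0abs
  rw [← hx, add_zero] at h1
  rw [h1]
  have h2 := enc_block (W ((x - s) / LL) y) 0 ((x - s) % LL) 0 hk0 hk1
  rw [mul_zero, zero_add] at h2
  rw [h2]
  unfold enc
  rfl

end Pool.Agent.H50R3.AMR
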