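import Mathlib
import Pool.Agent.H50R3.AMR.Geo
import Pool.Agent.H50R3.AMR.Enc

/-!
Spreading out a `ℤ²`-subshift of finite type by a factor `K`.
-/

set_option autoImplicit false

namespace Pool.Agent.H50R3.AMR

open Classical in
/-- put the symbols of `c` on the sublattice `Kℤ²`, blanks elsewhere -/
noncomputable def spread {Λ : Type} (K : ℤ) (c : ℤ → ℤ → Λ) (x y : ℤ) : Option Λ :=
  if x % K = 0 ∧ y % K = 0 then some (c (x / K) (y / K)) else none

theorem spread_block {Λ : Type} {K : ℤ} (hK : 0 < K) (c : ℤ → ℤ → Λ) (i j k l : ℤ)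
    (hk : 0 ≤ k) (hk1 : k < K) (hl : 0 ≤ l) (hl1 : l < K) :
    spread K c (K * i + k) (K * j + l) = if k = 0 ∧ l = 0 then some (c i j) else none := by
  have e1 : (K * i + k) % K = k := by
    rw [add_comm, Int.add_mul_emod_self_left]; exact Int.emod_eq_of_lt hk hk1
  have e2 : (K * i + k) / K = i := by
    rw [add_comm, Int.add_mul_ediv_left _ _ hK.ne', Int.ediv_eq_zero_of_lt hk hk1, zero_add]
  have e3 : (K * j + l) % K = l := by
    rw [add_comm, Int.add_mul_emod_self_left]; exact Int.emod_eq_of_lt hl hl1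
  have e4 : (K * j + l) / K = j := by
    rw [add_comm, Int.add_mul_ediv_left _ _ hK.ne', Int.ediv_eq_zero_of_lt hl hl1, zero_add]
  unfold spread
  rw [e1, e2, e3, e4]

theorem spread_mul {Λ : Type} {K : ℤ} (hK : 0 < K) (c : ℤ → ℤ → Λ) (i j : ℤ) :
    spread K c (K * i) (K * j) = some (c i j) := by
  have := spread_block hK c i j 0 0 le_rfl hK le_rfl hK
  simpa using this

theorem spread_ne_none {Λ : Type} {K : ℤ} (c : ℤ → ℤ → Λ) (x y : ℤ) :
    spread K c x y ≠ none ↔ K ∣ x ∧ K ∣ y := by
  unfold spread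
  split_ifs with h
  · simp only [ne_eq, reduceCtorEq, not_false_eq_true, true_iff]
    exact ⟨Int.dvd_of_emod_eq_zero h.1, Int.dvd_of_emod_eq_zero h.2⟩
  · simp only [ne_eq, not_true_eq_false, false_iff]
    rintro ⟨h1, h2⟩
    exact h ⟨Int.emod_eq_zero_of_dvd h1, Int.emod_eq_zero_of_dvd h2⟩

theorem spread_shift {Λ : Type} {K : ℤ} (hK : 0 < K) (c : ℤ → ℤ → Λ) (m n x y : ℤ) :
    spread K c (x + K * m) (y + K * n) = spread K (fun a b => c (a + m) (b + n)) x y := by
  unfold spread
  rw [Int.add_mul_emod_self_left, Int.add_mul_emod_self_left, Int.add_mul_ediv_left _ _ hK.ne',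
    Int.add_mul_ediv_left _ _ hK.ne']

def spreadX (G : GridSys) (K : ℤ) : Set (ℤ → ℤ → Option G.Λ) :=
  {c' | ∃ c ∈ G.X, ∃ s t : ℤ, ∀ x y, c' x y = spread K c (x + s) (y + t)}

theorem spreadX_shift {G : GridSys} {K : ℤ} (c' : ℤ → ℤ → Option G.Λ) (hc' : c' ∈ spreadX G K) (a b : ℤ) :
    (fun x y => c' (x + a) (y + b)) ∈ spreadX G K := by
  obtain ⟨c, hc, s, t, h⟩ := hc'
  exact ⟨c, hc, a + s, b + t, fun x y => by rw [← add_assoc, ← add_assoc]; exact h _ _⟩

theorem spreadX_centred {G : GridSys} {K : ℤ} (hK : 0 < K) {c' : ℤ → ℤ → Option G.Λ}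
    (hc' : c' ∈ spreadX G K) (h0 : c' 0 0 ≠ none) :
    ∃ c ∈ G.X, ∀ x y, c' x y = spread K c x y := by
  obtain ⟨c, hc, s, t, h⟩ := hc'
  rw [h, spread_ne_none, zero_add, zero_add] at h0
  obtain ⟨⟨m, rfl⟩, ⟨n, rfl⟩⟩ := h0
  refine ⟨fun a b => c (a + m) (b + n), G.shift c hc m n, fun x y => ?_⟩
  rw [h, spread_shift hK]

theorem spreadX_local {G : GridSys} {K : ℤ} (hK : 0 < K) (d : ℤ → ℤ → Option G.Λ)
    (h : ∀ x y, ∃ c' ∈ spreadX G K, ∀ a b : ℤ, |a| ≤ K * (G.N + 1) → |b| ≤ K * (G.N + 1) →
      d (x + a) (y + b) = c' a b) : d ∈ spreadX G K := by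
  have hN : (0 : ℤ) ≤ G.N := by positivity
  have hKN : K ≤ K * (G.N + 1) := by nlinarith
  have h0le : (0 : ℤ) ≤ K * (G.N + 1) := by positivity
  have habs0 : |(0 : ℤ)| ≤ K * (G.N + 1) := by rw [abs_zero]; exact h0le
  -- centred local forms at nonblank cells
  have hcen : ∀ x y, d x y ≠ none → ∃ c ∈ G.X, ∀ a b : ℤ, |a| ≤ K * (G.N + 1) →
      |b| ≤ K * (G.N + 1) → d (x + a) (y + b) = spread K c a b := by
    intro x y hxy
    obtain ⟨c', hc', hl⟩ := h x y
    have h00 := hl 0 0 habs0 habs0
    rw [add_zero, add_zero] at h00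
    rw [h00] at hxy
    obtain ⟨c, hc, hcc⟩ := spreadX_centred hK hc' hxy
    exact ⟨c, hc, fun a b ha hb => by rw [hl a b ha hb, hcc]⟩
  -- a nonblank cell
  obtain ⟨s, t, hst⟩ : ∃ s t, d s t ≠ none := by
    obtain ⟨c', ⟨c, hc, s, t, hc'⟩, hl⟩ := h 0 0
    have e1 : 0 ≤ s % K := Int.emod_nonneg _ hK.ne'
    have e2 : s % K < K := Int.emod_lt_of_pos _ hK
    have e3 : 0 ≤ t % K := Int.emod_nonneg _ hK.ne'
    have e4 : t % K < K := Int.emod_lt_of_pos _ hK
    refine ⟨0 + -(s % K), 0 + -(t % K), ?_⟩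
    rw [hl _ _ (by rw [abs_neg, abs_of_nonneg e1]; linarith)
      (by rw [abs_neg, abs_of_nonneg e3]; linarith), hc', spread_ne_none]
    constructor
    · have : -(s % K) + s = K * (s / K) := by
        have := Int.emod_add_mul_ediv s K
        linarith
      rw [this]; exact dvd_mul_right _ _
    · have : -(t % K) + t = K * (t / K) := by
        have := Int.emod_add_mul_ediv t K
        linarith
      rw [this]; exact dvd_mul_right _ _
  have hstep : ∀ x y, d x y ≠ none → ∀ i j : ℤ, |i| ≤ 1 → |j| ≤ 1 →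
      d (x + K * i) (y + K * j) ≠ none := by
    intro x y hxy i j hi hj
    obtain ⟨c, hc, hl⟩ := hcen x y hxy
    have hab : ∀ i : ℤ, |i| ≤ 1 → |K * i| ≤ K * (G.N + 1) := by
      intro i hi
      rw [abs_mul, abs_of_pos hK]
      nlinarith
    rw [hl _ _ (hab i hi) (hab j hj), spread_mul hK]
    simp
  have hrow : ∀ i : ℤ, d (s + K * i) t ≠ none := by
    intro i
    induction i using Int.induction_on with
    | zero => simpa using hst
    | succ i ih =>
      have := hstep _ _ ih 1 0 (by norm_num) (by norm_num)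
      rw [mul_zero, add_zero, add_assoc, ← mul_add] at this
      exact this
    | pred i ih =>
      have := hstep _ _ ih (-1) 0 (by norm_num) (by norm_num)
      rw [mul_zero, add_zero, add_assoc, ← mul_add] at this
      exact this
  have hall : ∀ i j : ℤ, d (s + K * i) (t + K * j) ≠ none := by
    intro i j
    induction j using Int.induction_on with
    | zero => simpa using hrow i
    | succ j ih =>
      have := hstep _ _ ih 0 1 (by norm_num) (by norm_num)
      rw [mul_zero, add_zero, add_assoc t, ← mul_add] at this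
      exact this
    | pred j ih =>
      have := hstep _ _ ih 0 (-1) (by norm_num) (by norm_num)
      rw [mul_zero, add_zero, add_assoc t, ← mul_add] at this
      exact this
  choose C hCX hC using fun i j => hcen (s + K * i) (t + K * j) (hall i j)
  let c : ℤ → ℤ → G.Λ := fun i j => C i j 0 0
  have hc : ∀ i j, d (s + K * i) (t + K * j) = some (c i j) := by
    intro i j
    have := hC i j 0 0 habs0 habs0
    rw [add_zero, add_zero] at this
    rw [this]
    simpa using spread_mul hK (C i j) 0 0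
  have hcX : c ∈ G.X := by
    apply G.loc
    intro i j
    refine ⟨C i j, hCX i j, ?_⟩
    intro a b ha hb
    have hab : ∀ i : ℤ, |i| ≤ G.N → |K * i| ≤ K * (G.N + 1) := by
      intro i hi
      rw [abs_mul, abs_of_pos hK]
      nlinarith
    have h1 := hC i j (K * a) (K * b) (hab a ha) (hab b hb)
    rw [spread_mul hK] at h1
    have h2 := hc (i + a) (j + b)
    have e1 : s + K * (i + a) = s + K * i + K * a := by ring
    have e2 : t + K * (j + b) = t + K * j + K * b := by ring
    rw [e1, e2, h1] at h2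
    exact (Option.some.inj h2).symm
  refine ⟨c, hcX, -s, -t, ?_⟩
  intro x y
  have hx : x = s + K * ((x - s) / K) + (x - s) % K := by
    have := Int.emod_add_mul_ediv (x - s) K
    linarith
  have hy : y = t + K * ((y - t) / K) + (y - t) % K := by
    have := Int.emod_add_mul_ediv (y - t) K
    linarith
  have hk0 : 0 ≤ (x - s) % K := Int.emod_nonneg _ hK.ne'
  have hk1 : (x - s) % K < K := Int.emod_lt_of_pos _ hK
  have hl0 : 0 ≤ (y - t) % K := Int.emod_nonneg _ hK.ne'
  have hl1 : (y - t) % K < K := Int.emod_lt_of_pos _ hK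
  have h1 := hC ((x - s) / K) ((y - t) / K) ((x - s) % K) ((y - t) % K)
    (by rw [abs_of_nonneg hk0]; linarith) (by rw [abs_of_nonneg hl0]; linarith)
  rw [← hx, ← hy] at h1
  rw [h1]
  have h2 := spread_block hK (C ((x - s) / K) ((y - t) / K)) 0 0 ((x - s) % K) ((y - t) % K)
    hk0 hk1 hl0 hl1
  rw [mul_zero, zero_add, zero_add] at h2
  rw [h2]
  unfold spread
  rfl

/-- the spread-out system -/
noncomputable def spreadSys (G : GridSys) (K : ℤ) (hK : 0 < K) : GridSys where
  Λ := Option G.Λ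
  fin := by have := G.fin; infer_instance
  X := spreadX G K
  ne := by
    obtain ⟨c, hc⟩ := G.ne
    exact ⟨fun x y => spread K c (x + 0) (y + 0), c, hc, 0, 0, fun _ _ => rfl⟩
  shift := spreadX_shift
  N := (K * (G.N + 1)).toNat
  loc := by
    intro d hd
    apply spreadX_local hK
    intro x y
    obtain ⟨c', hc', hl⟩ := hd x y
    have e : (((K * (G.N + 1)).toNat : ℕ) : ℤ) = K * (G.N + 1) :=
      Int.toNat_of_nonneg (by positivity)
    refine ⟨c', hc', fun a b ha hb => hl a b (by rw [e]; exact ha) (by rw [e]; exact hb)⟩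
  aper := by
    intro c' hc' u v hp
    obtain ⟨c, hc, s, t, h⟩ := hc'
    have h1 := hp (-s) (-t)
    have h2 : c' (-s) (-t) = some (c 0 0) := by
      rw [h, neg_add_cancel, neg_add_cancel]
      simpa using spread_mul hK c 0 0
    rw [h2] at h1
    have h3 : c' (-s + u) (-t + v) ≠ none := by rw [h1]; simp
    rw [h, spread_ne_none] at h3
    have e1 : -s + u + s = u := by ring
    have e2 : -t + v + t = v := by ring
    rw [e1, e2] at h3
    obtain ⟨⟨m, rfl⟩, ⟨n, rfl⟩⟩ := h3
    have key : ∀ x y, c (x + m) (y + n) = c x y := by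
      intro x y
      have h4 := hp (K * x - s) (K * y - t)
      rw [h, h] at h4
      have e3 : K * x - s + K * m + s = K * (x + m) := by ring
      have e4 : K * y - t + K * n + t = K * (y + n) := by ring
      have e5 : K * x - s + s = K * x := by ring
      have e6 : K * y - t + t = K * y := by ring
      rw [e3, e4, e5, e6, spread_mul hK, spread_mul hK] at h4
      exact Option.some.inj h4
    obtain ⟨rfl, rfl⟩ := G.aper c hc m n key
    simp

/-- the block-coded Wang system -/
noncomputable def encSys : GridSys where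
  Λ := Lbl
  fin := inferInstance
  X := {c | IsEnc c}
  ne := IsEnc.nonempty
  shift := fun c hc a b => IsEnc.shift hc a b
  N := (2 * LL).toNat
  loc := by
    intro c hc
    apply IsEnc.of_local
    intro x y
    obtain ⟨c', hc', hl⟩ := hc x y
    have e : (((2 * LL).toNat : ℕ) : ℤ) = 2 * LL := Int.toNat_of_nonneg (by linarith [LL_pos])
    refine ⟨c', hc', fun a b ha hb => hl a b (by rw [e]; exact ha)
      (by rw [e]; linarith [LL_ge_two])⟩
  aper := fun c hc u v hp => IsEnc.aperiodic hc u v hp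

end Pool.Agent.H50R3.AMR
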