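import Mathlib
import Pool.Agent.H50R3.AMR.Count
import Pool.Agent.H50R3.AMR.Spread

/-!
Discrepancy of labels and of small patterns in the spread-out block-coded system.
-/

set_option autoImplicit false

namespace Pool.Agent.H50R3.AMR

open MeasureTheory Metric GridSys

theorem IsEnc.marker_unique {c : ℤ → ℤ → Lbl} (h : IsEnc c) (x y : ℤ) {k k' : ℤ}
    (hk : 0 ≤ k) (hk1 : k < LL) (hk' : 0 ≤ k') (hk1' : k' < LL)
    (h1 : c (x - k) y = none) (h2 : c (x - k') y = none) : k = k' := by
  rcases le_total k k' with hle | hle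
  · have h3 := h.block_inj (x - k') y h2 (k := 0) (k' := k' - k) le_rfl LL_pos (by omega) (by omega)
      (by rw [add_zero, h2]
          have : x - k' + (k' - k) = x - k := by ring
          rw [this, h1])
    omega
  · have h3 := h.block_inj (x - k) y h1 (k := 0) (k' := k - k') le_rfl LL_pos (by omega) (by omega)
      (by rw [add_zero, h1]
          have : x - k + (k - k') = x - k' := by ring
          rw [this, h2])
    omega

/-- horizontal offsets inside a block row -/
noncomputable def F1 (K : ℤ) : Finset (ℤ × ℤ) :=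
  (Finset.Icc (-(K * LL - 1)) 0) ×ˢ ({0} : Finset ℤ)

/-- offsets inside a block -/
noncomputable def F2 (K : ℤ) : Finset (ℤ × ℤ) :=
  (Finset.Icc (-(K * LL - 1)) 0) ×ˢ (Finset.Icc (-(K - 1)) 0)

theorem card_filter_one {α : Type} (F : Finset α) (p : α → Prop) [DecidablePred p] (a : α)
    (ha : a ∈ F) (hp : p a) (hu : ∀ b ∈ F, p b → b = a) : (F.filter p).card = 1 := by
  rw [Finset.card_eq_one]
  refine ⟨a, ?_⟩
  ext b
  rw [Finset.mem_filter, Finset.mem_singleton]
  constructor
  · rintro ⟨h1, h2⟩; exact hu b h1 h2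
  · rintro rfl; exact ⟨ha, hp⟩

theorem eq_of_dvd_of_abs_lt {K a : ℤ} (hK : 0 < K) (h : K ∣ a) (h1 : -K < a) (h2 : a < K) :
    a = 0 := by
  obtain ⟨m, rfl⟩ := h
  have h3 : m < 1 := by nlinarith
  have h4 : -1 < m := by nlinarith
  have : m = 0 := by omega
  rw [this, mul_zero]

theorem factE {G : GridSys} {K : ℤ} (hK : 0 < K) {c' : ℤ → ℤ → Option G.Λ}
    (hc' : c' ∈ spreadX G K) (x y x' y' : ℤ) (h : c' x y ≠ none) (h' : c' x' y' ≠ none)
    (hx : |x - x'| < K) (hy : |y - y'| < K) : x = x' ∧ y = y' := by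
  obtain ⟨c, hc, s, t, hh⟩ := hc'
  rw [hh, spread_ne_none] at h h'
  rw [abs_lt] at hx hy
  have h1 := eq_of_dvd_of_abs_lt hK (dvd_sub h.1 h'.1) (by linarith [hx.1]) (by linarith [hx.2])
  have h2 := eq_of_dvd_of_abs_lt hK (dvd_sub h.2 h'.2) (by linarith [hy.1]) (by linarith [hy.2])
  constructor <;> linarith

theorem factRow {G : GridSys} {K : ℤ} (hK : 0 < K) {c' : ℤ → ℤ → Option G.Λ}
    (hc' : c' ∈ spreadX G K) (x y x' y' : ℤ) (h : c' x y ≠ none) (h' : c' x' y' ≠ none)
    (hy : |y - y'| < K) : y = y' := by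
  obtain ⟨c, hc, s, t, hh⟩ := hc'
  rw [hh, spread_ne_none] at h h'
  rw [abs_lt] at hy
  have h2 := eq_of_dvd_of_abs_lt hK (dvd_sub h.2 h'.2) (by linarith [hy.1]) (by linarith [hy.2])
  linarith

theorem factC {K : ℤ} (hK : 0 < K) {c' : ℤ → ℤ → Option Lbl} (hc' : c' ∈ spreadX encSys K)
    [DecidablePred (fun f : ℤ × ℤ => c' f.1 f.2 = some none)] :
    ((F2 K).filter (fun f => c' f.1 f.2 = some none)).card = 1 := by
  obtain ⟨c, hc, s, t, hh⟩ := hc'
  have hL := LL_pos
  have es := Int.emod_add_mul_ediv s K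
  have et := Int.emod_add_mul_ediv t K
  have s0 : 0 ≤ s % K := Int.emod_nonneg _ hK.ne'
  have s1 : s % K < K := Int.emod_lt_of_pos _ hK
  have t0 : 0 ≤ t % K := Int.emod_nonneg _ hK.ne'
  have t1 : t % K < K := Int.emod_lt_of_pos _ hK
  have hc0 : IsEnc c := hc
  obtain ⟨j, hj0, hj1, hj⟩ := hc0.marker_left (s / K) (t / K)
  have hval : c' (-(s % K + K * j)) (-(t % K)) = some none := by
    rw [hh]
    have e1 : -(s % K + K * j) + s = K * (s / K - j) := by rw [mul_sub]; linarith
    have e2 : -(t % K) + t = K * (t / K) := by linarith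
    rw [e1, e2]
    have := spread_mul hK c (s / K - j) (t / K)
    rw [this, hj]
    rfl
  apply card_filter_one _ _ (-(s % K + K * j), -(t % K))
  · unfold F2
    rw [Finset.mem_product, Finset.mem_Icc, Finset.mem_Icc]
    refine ⟨⟨?_, ?_⟩, ?_, ?_⟩
    · simp only
      have : K * j ≤ K * (LL - 1) := by
        apply mul_le_mul_of_nonneg_left _ hK.le; omega
      nlinarith
    · simp only
      have : 0 ≤ K * j := by positivity
      linarith
    · simp only; linarith
    · simp only; linarith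
  · exact hval
  · rintro ⟨k, l⟩ hb hkl
    unfold F2 at hb
    rw [Finset.mem_product, Finset.mem_Icc, Finset.mem_Icc] at hb
    simp only at hb hkl
    obtain ⟨⟨b1, b2⟩, b3, b4⟩ := hb
    rw [hh] at hkl hval
    have hne : spread K c (k + s) (l + t) ≠ none := by rw [hkl]; simp
    rw [spread_ne_none] at hne
    have hl : l = -(t % K) := by
      have hd : K ∣ (l + t % K) := by
        have : l + t % K = (l + t) - K * (t / K) := by linarith
        rw [this]
        exact dvd_sub hne.2 (dvd_mul_right _ _)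
      have := eq_of_dvd_of_abs_lt hK hd (by linarith) (by linarith)
      linarith
    obtain ⟨i1, hi1⟩ := hne.1
    have e2 : l + t = K * (t / K) := by rw [hl]; linarith
    rw [hi1, e2] at hkl
    have h5 := spread_mul hK c i1 (t / K)
    rw [h5] at hkl
    have h6 : c i1 (t / K) = none := Option.some.inj hkl
    have hk : k = -(s % K) - K * (s / K - i1) := by rw [mul_sub]; linarith
    have hj2 : 0 ≤ s / K - i1 := by
      by_contra hcon
      push Not at hcon
      have h7 : s / K - i1 ≤ -1 := by omega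
      have : K * (s / K - i1) ≤ K * (-1) := mul_le_mul_of_nonneg_left h7 hK.le
      linarith
    have hj3 : s / K - i1 < LL := by
      by_contra hcon
      push Not at hcon
      have : K * LL ≤ K * (s / K - i1) := mul_le_mul_of_nonneg_left hcon hK.le
      linarith
    have h8 := hc0.marker_unique (s / K) (t / K) hj0 hj1 hj2 hj3 hj
      (by rw [sub_sub_cancel]; exact h6)
    rw [hk, hl, ← h8]
    congr 1
    ring

theorem factA {K : ℤ} (hK : 0 < K) {c' : ℤ → ℤ → Option Lbl} (hc' : c' ∈ spreadX encSys K)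
    (h0 : c' 0 0 ≠ none) [DecidablePred (fun f : ℤ × ℤ => c' f.1 f.2 = some none)] : ((F1 K).filter (fun f => c' f.1 f.2 = some none)).card = 1 := by
  rw [← factC hK hc']
  congr 1
  ext ⟨k, l⟩
  rw [Finset.mem_filter, Finset.mem_filter]
  constructor
  · rintro ⟨h1, h2⟩
    refine ⟨?_, h2⟩
    unfold F1 at h1
    unfold F2
    rw [Finset.mem_product, Finset.mem_singleton] at h1
    rw [Finset.mem_product, Finset.mem_Icc, Finset.mem_Icc]
    rw [Finset.mem_Icc] at h1
    simp only at h1 ⊢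
    refine ⟨h1.1, ?_, ?_⟩
    · rw [h1.2]; linarith
    · rw [h1.2]
  · rintro ⟨h1, h2⟩
    refine ⟨?_, h2⟩
    unfold F2 at h1
    unfold F1
    rw [Finset.mem_product, Finset.mem_Icc, Finset.mem_Icc] at h1
    rw [Finset.mem_product, Finset.mem_Icc, Finset.mem_singleton]
    simp only at h1 h2 ⊢
    refine ⟨h1.1, ?_⟩
    have := factRow hK hc' k l 0 0 (by rw [h2]; simp) h0 (by rw [sub_zero, abs_lt]; constructor <;> linarith [h1.2.1, h1.2.2])
    exact this

theorem factB {K : ℤ} (hK : 0 < K) {c' : ℤ → ℤ → Option Lbl} (hc' : c' ∈ spreadX encSys K)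
    (h0 : c' 0 0 = some none) (t : Lbl)
    [DecidablePred (fun f : ℤ × ℤ => c' (-f.1) (-f.2) = some t)] :
    ((F1 K).filter (fun f => c' (-f.1) (-f.2) = some t)).card = 1 := by
  obtain ⟨c, hc, hh⟩ := spreadX_centred hK hc' (by rw [h0]; simp)
  have hL := LL_pos
  have hc0 : IsEnc c := hc
  have h00 : c 0 0 = none := by
    have h1 := hh 0 0
    have h2 := spread_mul hK c 0 0
    rw [mul_zero] at h2
    rw [h0, h2] at h1
    exact (Option.some.inj h1).symm
  obtain ⟨j, hj0, hj1, hj⟩ := hc0.block_surj 0 0 h00 t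
  rw [zero_add] at hj
  apply card_filter_one _ _ (-(K * j), 0)
  · unfold F1
    rw [Finset.mem_product, Finset.mem_Icc, Finset.mem_singleton]
    simp only
    refine ⟨⟨?_, ?_⟩, trivial⟩
    · have : K * j ≤ K * (LL - 1) := by
        apply mul_le_mul_of_nonneg_left _ hK.le; omega
      nlinarith
    · have : 0 ≤ K * j := by positivity
      linarith
  · simp only [neg_neg, neg_zero]
    rw [hh]
    have h2 := spread_mul hK c j 0
    rw [mul_zero] at h2
    rw [h2, hj]
    rfl
  · rintro ⟨k, l⟩ hb hkl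
    unfold F1 at hb
    rw [Finset.mem_product, Finset.mem_Icc, Finset.mem_singleton] at hb
    simp only at hb hkl
    obtain ⟨⟨b1, b2⟩, rfl⟩ := hb
    rw [neg_zero, hh] at hkl
    have hne : spread K c (-k) 0 ≠ none := by rw [hkl]; simp
    rw [spread_ne_none] at hne
    obtain ⟨i1, hi1⟩ := hne.1
    rw [hi1] at hkl
    have h2 := spread_mul hK c i1 0
    rw [mul_zero] at h2
    rw [h2] at hkl
    have h6 : c i1 0 = t := Option.some.inj hkl
    have hj2 : 0 ≤ i1 := by
      by_contra hcon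
      push Not at hcon
      have h7 : i1 ≤ -1 := by omega
      have : K * i1 ≤ K * (-1) := mul_le_mul_of_nonneg_left h7 hK.le
      linarith
    have hj3 : i1 < LL := by
      by_contra hcon
      push Not at hcon
      have : K * LL ≤ K * i1 := mul_le_mul_of_nonneg_left hcon hK.le
      linarith
    have h8 := hc0.block_inj 0 0 h00 hj0 hj1 hj2 hj3 (by rw [zero_add, zero_add, hj, h6])
    rw [h8]
    congr 1
    linarith

/-- the final system -/
noncomputable abbrev GK (K : ℤ) (hK : 0 < K) : GridSys := spreadSys encSys K hK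

theorem GK_N (K : ℤ) (hK : 0 < K) : (((GK K hK).N : ℕ) : ℤ) = K * (2 * LL + 1) := by
  show ((((K * ((((2 * LL).toNat : ℕ) : ℤ) + 1)).toNat : ℕ)) : ℤ) = _
  have e : (((2 * LL).toNat : ℕ) : ℤ) = 2 * LL := Int.toNat_of_nonneg (by linarith [LL_pos])
  rw [e, Int.toNat_of_nonneg]
  have := LL_pos
  positivity

theorem GK_D (K : ℤ) (hK : 0 < K) : (((GK K hK).D : ℕ) : ℤ) = K * (2 * LL + 1) + 3 := by
  unfold GridSys.D
  push_cast
  rw [GK_N]

theorem F1_bd (K : ℤ) (hK : 0 < K) : ∀ f ∈ F1 K, |f.1| ≤ (GK K hK).D ∧ |f.2| ≤ (GK K hK).D := by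
  have hL := LL_pos
  have hKL : 0 < K * LL := by positivity
  rintro ⟨k, l⟩ hf
  unfold F1 at hf
  rw [Finset.mem_product, Finset.mem_Icc, Finset.mem_singleton] at hf
  simp only at hf ⊢
  rw [GK_D]
  obtain ⟨⟨h1, h2⟩, rfl⟩ := hf
  rw [abs_of_nonpos h2, abs_zero]
  constructor <;> nlinarith

theorem F2_bd (K : ℤ) (hK : 0 < K) : ∀ f ∈ F2 K, |f.1| ≤ (GK K hK).D ∧ |f.2| ≤ (GK K hK).D := by
  have hL := LL_pos
  have hKL : 0 < K * LL := by positivity
  rintro ⟨k, l⟩ hf
  unfold F2 at hf
  rw [Finset.mem_product, Finset.mem_Icc, Finset.mem_Icc] at hf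
  simp only at hf ⊢
  rw [GK_D]
  obtain ⟨⟨h1, h2⟩, h3, h4⟩ := hf
  rw [abs_of_nonpos h2, abs_of_nonpos h4]
  constructor <;> nlinarith

theorem F2_card_pos (K : ℤ) (hK : 0 < K) : 0 < (F2 K).card := by
  rw [Finset.card_pos]
  refine ⟨(0, 0), ?_⟩
  unfold F2
  have hL := LL_pos
  have hKL : 0 < K * LL := by positivity
  rw [Finset.mem_product, Finset.mem_Icc, Finset.mem_Icc]
  simp only
  refine ⟨⟨by linarith, le_rfl⟩, by linarith, le_rfl⟩

end Pool.Agent.H50R3.AMR
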