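import Mathlib
import Pool.Agent.H50R3.AMR.Final
import Pool.Agent.H50R3.AMR.Block

/-!
Assembly.
-/

set_option autoImplicit false

namespace Pool.Agent.H50R3.AMR

open MeasureTheory Metric GridSys

noncomputable def GKdata (K : ℤ) (hK : 0 < K) : BlockData (GK K hK) where
  mkr := (some none : Option Lbl)
  blank := (none : Option Lbl)
  K := K
  hK := hK
  hKD := by
    rw [GK_D]
    have := LL_pos
    nlinarith
  F1 := F1 K
  F2 := F2 K
  hF1 := F1_bd K hK
  hF2 := F2_bd K hK
  hF2pos := F2_card_pos K hK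
  hA := fun c hc h0 => @factA K hK c hc h0 (fun _ => Classical.propDecidable _)
  hB := by
    intro c hc h0 t ht
    rcases h : (show Option Lbl from t) with _ | l
    · exact absurd h ht
    · exact @factB K hK c hc h0 l (fun _ => Classical.propDecidable _)
  hC := fun c hc => @factC K hK c hc (fun _ => Classical.propDecidable _)
  hE := fun c hc x y x' y' h h' hx hy => factE hK (c' := c) hc x y x' y' h h' hx hy

theorem coord_le_diam {G : GridSys} (A : Finset (Tile G.S)) (a a' : Tile G.S) (ha : a ∈ A)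
    (ha' : a' ∈ A) (i : Fin 2) :
    |a.2 i - a'.2 i| ≤ Metric.diam (region (A : Set (Tile G.S))) := by
  refine (coord_le_dist a.2 a'.2 i).trans ?_
  apply Metric.dist_le_diam_of_mem
  · rw [region_eq]
    rw [Bornology.isBounded_biUnion_finset]
    intro τ _
    exact (isCompact_sqAt τ.2).isBounded
  · rw [region_eq]
    simp only [Set.mem_iUnion]
    exact ⟨a, ha, mem_sqAt_self _⟩
  · rw [region_eq]
    simp only [Set.mem_iUnion]
    exact ⟨a', ha', mem_sqAt_self _⟩

theorem main (K : ℝ) :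
    ∃ (S : ProtoSet 2) (M : MatchingRule S),
      (∃ T : Set (Tile S), IsTiling T ∧ Legal M T) ∧
      (∀ T : Set (Tile S), IsTiling T → Legal M T → ¬ IsPeriodic T) ∧
      (∃ δ c : S.F → ℝ, ∀ P : Set (Tile S), Packed P → Legal M P →
        ∀ ρ : Finset (Tile S), (ρ : Set (Tile S)) ⊆ P → ∀ t : S.F,
          discrepancy t (δ t) ρ ≤ c t * perimeter ρ) ∧
      (∀ A : Finset (Tile S), A.Nonempty → Metric.diam (region (A : Set (Tile S))) ≤ K →
        ∃ δ c : ℝ, ∀ P : Set (Tile S), Packed P → Legal M P →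
          ∀ ρ : Finset (Tile S), (ρ : Set (Tile S)) ⊆ P →
            patternDiscrepancy A δ ρ ≤ c * perimeter ρ) := by
  let Kz : ℤ := max (⌊K⌋ + 1) 1
  have hKz : 0 < Kz := lt_of_lt_of_le one_pos (le_max_right _ _)
  have hKz' : K < Kz := by
    have h1 := Int.lt_floor_add_one K
    have h2 : ((⌊K⌋ + 1 : ℤ) : ℝ) ≤ (Kz : ℝ) := by exact_mod_cast le_max_left _ _
    push_cast at h2
    linarith
  let Bd := GKdata Kz hKz
  refine ⟨(GK Kz hKz).S, (GK Kz hKz).M, ?_, ?_, ?_, ?_⟩
  · obtain ⟨c, hc⟩ := (GK Kz hKz).ne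
    exact ⟨gridSet c 0, gridSet_tiling c, gridSet_legal hc⟩
  · intro T hT hL
    exact nonperiodic hT hL
  · choose δ c h using fun t => tile_disc Bd t
    refine ⟨δ, c, ?_⟩
    intro P hP hL ρ hρ t
    have := h t P ρ hP hL hρ
    unfold discrepancy
    rw [volume_region hP ρ hρ]
    simpa using this
  · intro A hne hd
    obtain ⟨δ, c, h⟩ := pattern_disc Bd A hne (by
      intro a ha a' ha' i
      exact lt_of_le_of_lt ((coord_le_diam A a a' ha ha' i).trans hd) hKz')
    refine ⟨δ, c, ?_⟩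
    intro P hP hL ρ hρ
    have := h P ρ hP hL hρ
    unfold patternDiscrepancy
    rw [volume_region hP ρ hρ]
    simpa using this

end Pool.Agent.H50R3.AMR
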